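import Mathlib

/-!
# CHF, convexity half: definitions

Finite products `p(s) = ∏_{j<n} (1 + s/μ_j)`, the inverse Fourier integrals of `P(iy)/p(iy)`,
sign patterns.
-/

set_option autoImplicit false

open MeasureTheory Filter Topology Finset

noncomputable section

namespace Pool.Agent.CHF.Conv

/-- Inverse Fourier integral. -/
def FI (F : ℝ → ℂ) (t : ℝ) : ℂ :=
  (1 / (2 * (Real.pi : ℂ))) * ∫ y : ℝ, F y * Complex.exp (Complex.I * y * t)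

/-- `f` has an alternating sign pattern of length `r` (from left to right), starting with the
sign of `σ`. -/
def Pat (f : ℝ → ℝ) (σ : ℝ) (r : ℕ) : Prop :=
  ∃ x : ℕ → ℝ, (∀ i, i + 1 < r → x i < x (i + 1)) ∧ ∀ i, i < r → 0 < σ * (-1) ^ i * f (x i)

/-- `p_n(s) = ∏_{j<n} (1 + s/μ_j)`. -/
def pp (μ : ℕ → ℝ) (n : ℕ) (s : ℂ) : ℂ := ∏ j ∈ range n, (1 + s / (μ j : ℂ))

/-- `P(s) = ∑_{j≤m} c_j s^j`. -/
def PC (c : ℕ → ℝ) (m : ℕ) (s : ℂ) : ℂ := ∑ j ∈ range (m + 1), (c j : ℂ) * s ^ j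

/-- `φ = P(D) g_n`, `g_n` the density with Laplace transform `1/p_n`. -/
def phi (μ : ℕ → ℝ) (c : ℕ → ℝ) (m n : ℕ) (t : ℝ) : ℝ :=
  (FI (fun y => PC c m (Complex.I * y) / pp μ n (Complex.I * y)) t).re

/-- The `j`-th derivative of `g_n`. -/
def gn (μ : ℕ → ℝ) (n j : ℕ) (t : ℝ) : ℝ :=
  (FI (fun y => (Complex.I * y) ^ j / pp μ n (Complex.I * y)) t).re

/-- The kernel `k(v) = ∑_{i<n} e^{-μ_i v}`. -/
def kk (μ : ℕ → ℝ) (n : ℕ) (v : ℝ) : ℝ := ∑ i ∈ range n, Real.exp (-(μ i) * v)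

/-- `p_n` solves `p'' = (al + be s) p' - ga p`. -/
def ODE (μ : ℕ → ℝ) (n : ℕ) (al be ga : ℝ) : Prop :=
  ∀ s : ℂ, deriv (deriv (pp μ n)) s =
    ((al : ℂ) + (be : ℂ) * s) * deriv (pp μ n) s - (ga : ℂ) * pp μ n s

/-- Edge point of the Hermite polynomial. -/
def hc (n : ℕ) : ℝ := √(4 * n + 2)

/-- Scaling at the edge: `hnu^3 * hc = 2`. -/
def hnu (n : ℕ) : ℝ := (2 / hc n) ^ (1 / 3 : ℝ)

/-- `μ` is an admissible sequence of rates for the `n`-th Hermite polynomial: all rates positive,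
the first `n` are distinct and `p_n` satisfies the rescaled Hermite equation. -/
structure Herm (μ : ℕ → ℝ) (n : ℕ) : Prop where
  pos : ∀ j, 0 < μ j
  inj : Set.InjOn μ (range n : Set ℕ)
  ode : ODE μ n (hnu n * hc n) (hnu n ^ 2) (n * hnu n ^ 2)

/-- `F_n(s) = p_n(s) exp (- hnu hc s/2 - hnu² s²/4)`. -/
def FF (μ : ℕ → ℝ) (n : ℕ) (s : ℂ) : ℂ :=
  pp μ n s * Complex.exp (-((hnu n * hc n : ℝ) : ℂ) * s / 2 - ((hnu n ^ 2 : ℝ) : ℂ) * s ^ 2 / 4)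

end Pool.Agent.CHF.Conv
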