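import Pool.Agent.CHF.ConvDefs

/-!
# CHF, convexity half: targets (proofs in `ConvBlueprint.lean.txt`)
-/

set_option autoImplicit false

open MeasureTheory Filter Topology Finset

noncomputable section

namespace Pool.Agent.CHF.Conv

/-! ### A: inverse Fourier integrals -/

/-- FID: derivative -/
def T_FID : Prop := ∀ F : ℝ → ℂ, Integrable F → Integrable (fun y : ℝ => (y : ℂ) * F y) →
  ∀ t, HasDerivAt (FI F) (FI (fun y => Complex.I * y * F y) t) t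

/-- FIT: multiplication by `t` -/
def T_FIT : Prop := ∀ F F' : ℝ → ℂ, (∀ y, HasDerivAt F (F' y) y) → Integrable F → Integrable F' →
  ∀ t : ℝ, (t : ℂ) * FI F t = FI (fun y => Complex.I * F' y) t

/-- FIC: convolution with exponentials -/
def T_FIC : Prop := ∀ (F : ℝ → ℂ) (m : ℝ), Integrable F → 0 < m → ∀ t : ℝ,
  ∫ v in Set.Ioi (0 : ℝ), (Real.exp (-m * v) : ℂ) * FI F (t - v) =
      FI (fun y => F y / (Complex.I * y + m)) t ∧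
  ∫ v in Set.Ioi (0 : ℝ), ((v * Real.exp (-m * v) : ℝ) : ℂ) * FI F (t - v) =
      FI (fun y => F y / (Complex.I * y + m) ^ 2) t

/-- FIB: `FI F` is bounded and continuous, and real if `F (-y) = conj (F y)` -/
def T_FIB : Prop := ∀ F : ℝ → ℂ, Integrable F →
  (∃ C : ℝ, ∀ t, ‖FI F t‖ ≤ C) ∧ Continuous (FI F) ∧
  ((∀ y, F (-y) = (starRingEnd ℂ) (F y)) → ∀ t, (FI F t).im = 0)

/-! ### B: finite products -/

/-- PPB: growth and integrability -/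
def T_PPB : Prop := ∀ μ : ℕ → ℝ, (∀ j, 0 < μ j) → ∀ n : ℕ,
  (∃ c : ℝ, 0 < c ∧ ∀ y : ℝ, c * (1 + |y|) ^ n ≤ ‖pp μ n (Complex.I * y)‖) ∧
  (∀ j : ℕ, j + 2 ≤ n → Integrable (fun y : ℝ => (Complex.I * y) ^ j / pp μ n (Complex.I * y)))

/-- STP (from FID, PPB, FIB): removing one factor -/
def T_STP : Prop := ∀ (μ : ℕ → ℝ) (c : ℕ → ℝ) (m n : ℕ), (∀ j, 0 < μ j) → m + 2 ≤ n →
  (∀ t, HasDerivAt (phi μ c m (n + 1)) (μ n * (phi μ c m n t - phi μ c m (n + 1) t)) t) ∧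
  (∃ C : ℝ, ∀ t, |phi μ c m (n + 1) t| ≤ C) ∧ Continuous (phi μ c m n)

/-- PST: patterns pass from `φ` to `χ` if `φ' = m (χ - φ)` and `φ` is bounded -/
def T_PST : Prop := ∀ (φ χ : ℝ → ℝ) (m σ : ℝ) (r : ℕ), 0 < m →
  (∀ t, HasDerivAt φ (m * (χ t - φ t)) t) → (∃ C : ℝ, ∀ t, |φ t| ≤ C) → Pat φ σ r → Pat χ σ r

/-- EXS: exponential sums with `N` terms have no alternating pattern of length `N + 1` -/
def T_EXS : Prop := ∀ (s : Finset ℕ) (B ν : ℕ → ℝ) (σ : ℝ),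
  ¬ Pat (fun t => ∑ j ∈ s, B j * Real.exp (ν j * t)) σ (s.card + 1)

/-- PFR: the case of `m + 2` factors is explicit (partial fractions) -/
def T_PFR : Prop := ∀ (μ : ℕ → ℝ) (c : ℕ → ℝ) (m : ℕ), (∀ j, 0 < μ j) →
  Set.InjOn μ (range (m + 2) : Set ℕ) → ∃ B : ℕ → ℝ,
    (∀ t ≤ 0, phi μ c m (m + 2) t = 0) ∧
    (∀ t, 0 ≤ t → phi μ c m (m + 2) t = ∑ j ∈ range (m + 2), B j * Real.exp (-(μ j) * t)) ∧
    ∑ j ∈ range (m + 2), B j = 0 ∧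
    -∑ j ∈ range (m + 2), μ j * B j = c m * ∏ j ∈ range (m + 2), μ j

/-- BAS (from PFR, EXS): variation diminishing, `m + 2` factors -/
def T_BAS : Prop := ∀ (μ : ℕ → ℝ) (c : ℕ → ℝ) (m : ℕ), (∀ j, 0 < μ j) →
  Set.InjOn μ (range (m + 2) : Set ℕ) → 0 < c m → ¬ Pat (phi μ c m (m + 2)) (-1) (m + 1)

/-- VDM (from BAS, STP, PST): variation diminishing -/
def T_VDM : Prop := ∀ (μ : ℕ → ℝ) (c : ℕ → ℝ) (m n : ℕ), (∀ j, 0 < μ j) → m + 2 ≤ n →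
  Set.InjOn μ (range n : Set ℕ) → 0 < c m → ¬ Pat (phi μ c m n) (-1) (m + 1)

/-- SUP (from VDM, PFR, STP): support and sign of `g_n` -/
def T_SUP : Prop := ∀ (μ : ℕ → ℝ) (n : ℕ), (∀ j, 0 < μ j) → 2 ≤ n →
  Set.InjOn μ (range n : Set ℕ) → (∀ t ≤ 0, gn μ n 0 t = 0) ∧ ∀ t, 0 ≤ gn μ n 0 t

/-- GND (from FID, PPB, FIB): derivatives of `g_n`, `P(D) g_n` -/
def T_GND : Prop := ∀ (μ : ℕ → ℝ) (n : ℕ), (∀ j, 0 < μ j) →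
  (∀ j, j + 3 ≤ n → ∀ t, HasDerivAt (gn μ n j) (gn μ n (j + 1) t) t) ∧
  (∀ j, j + 2 ≤ n → Continuous (gn μ n j) ∧ ∃ C : ℝ, ∀ t, |gn μ n j t| ≤ C) ∧
  (∀ (c : ℕ → ℝ) (m : ℕ), m + 2 ≤ n → ∀ t,
    phi μ c m n t = ∑ j ∈ range (m + 1), c j * gn μ n j t)

/-- ID1 (from FIT, FIC, PPB, FIB) -/
def T_ID1 : Prop := ∀ (μ : ℕ → ℝ) (n : ℕ), (∀ j, 0 < μ j) → 7 ≤ n → ∀ j ≤ 3, ∀ t : ℝ,
  ∫ v in Set.Ioi (0 : ℝ), kk μ n v * gn μ n j (t - v) =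
    t * gn μ n j t + j * gn μ n (j - 1) t

/-- ID2 (from FIT, FIC, PPB, FIB) -/
def T_ID2 : Prop := ∀ (μ : ℕ → ℝ) (n : ℕ) (al be ga : ℝ), (∀ j, 0 < μ j) → 7 ≤ n →
  ODE μ n al be ga → ∀ j ≤ 3, ∀ t : ℝ,
  2 * ∫ v in Set.Ioi (0 : ℝ), v * kk μ n v * gn μ n j (t - v) =
    (t ^ 2 * gn μ n j t + 2 * j * t * gn μ n (j - 1) t + j * (j - 1) * gn μ n (j - 2) t)
    - al * (t * gn μ n j t + j * gn μ n (j - 1) t)
    - be * (t * gn μ n (j + 1) t + (j + 1) * gn μ n j t) + ga * gn μ n j t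

/-! ### C: sign changes -/

/-- SC2 -/
def T_SC2 : Prop := ∀ (L k : ℝ → ℝ) (d : ℝ), Continuous L → Continuous k →
  (∀ v, 0 < v → 0 < k v) → L 0 = 0 → HasDerivAt L d 0 → 0 < d →
  (¬ ∃ a b e : ℝ, a < b ∧ b < e ∧ L a < 0 ∧ 0 < L b ∧ L e < 0) →
  IntegrableOn (fun v => k v * L v) (Set.Ioi 0) →
  ∫ v in Set.Ioi (0 : ℝ), k v * L v ≠ 0

/-- SC3 -/
def T_SC3 : Prop := ∀ (L k : ℝ → ℝ) (d : ℝ), Continuous L → Continuous k →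
  (∀ v, 0 < v → 0 < k v) → L 0 = 0 → HasDerivAt L d 0 → d < 0 →
  (¬ ∃ a b e f : ℝ, a < b ∧ b < e ∧ e < f ∧ 0 < L a ∧ L b < 0 ∧ 0 < L e ∧ L f < 0) →
  IntegrableOn (fun v => k v * L v) (Set.Ioi 0) →
  IntegrableOn (fun v => v * k v * L v) (Set.Ioi 0) →
  ∫ v in Set.Ioi (0 : ℝ), k v * L v = 0 →
  0 ≤ ∫ v in Set.Ioi (0 : ℝ), v * k v * L v

/-- K3N (from VDM, SUP, GND, ID1, SC2): `(log g_n)''' ≥ 0` -/
def T_K3N : Prop := ∀ (μ : ℕ → ℝ) (n : ℕ), (∀ j, 0 < μ j) → 7 ≤ n →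
  Set.InjOn μ (range n : Set ℕ) → ∀ t : ℝ,
  0 ≤ gn μ n 3 t * gn μ n 0 t ^ 2 - 3 * gn μ n 0 t * gn μ n 1 t * gn μ n 2 t
    + 2 * gn μ n 1 t ^ 3

/-- K4N (from VDM, SUP, GND, ID1, ID2, SC3, K3N): `(log g_n)'''' ≤ 0` -/
def T_K4N : Prop := ∀ (μ : ℕ → ℝ) (n : ℕ) (al be ga : ℝ), (∀ j, 0 < μ j) → 7 ≤ n →
  Set.InjOn μ (range n : Set ℕ) → ODE μ n al be ga → 0 < be → ∀ t : ℝ,
  gn μ n 0 t ^ 3 * gn μ n 4 t - 4 * gn μ n 0 t ^ 2 * gn μ n 1 t * gn μ n 3 t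
    - 3 * gn μ n 0 t ^ 2 * gn μ n 2 t ^ 2 + 12 * gn μ n 0 t * gn μ n 1 t ^ 2 * gn μ n 2 t
    - 6 * gn μ n 1 t ^ 4 ≤ 0

/-! ### D: Hermite polynomials at the edge -/

/-- HRT: real zeros -/
def T_HRT : Prop := ∀ n : ℕ, ∃ x : ℕ → ℝ, Set.InjOn x (range n : Set ℕ) ∧
  (Polynomial.hermite n).map (Int.castRingHom ℝ) =
    ∏ j ∈ range n, (Polynomial.X - Polynomial.C (x j))

/-- HOD: the Hermite equation -/
def T_HOD : Prop := ∀ n : ℕ, ∀ x : ℝ,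
  let H := (Polynomial.hermite n).map (Int.castRingHom ℝ)
  (Polynomial.derivative (Polynomial.derivative H)).eval x =
    x * (Polynomial.derivative H).eval x - n * H.eval x

/-- HBD (from HOD): no zeros beyond `√(4n+2)` -/
def T_HBD : Prop := ∀ n : ℕ, ∀ x : ℝ, hc n ≤ x →
  ((Polynomial.hermite n).map (Int.castRingHom ℝ)).eval x ≠ 0

/-- HER (from HRT, HOD, HBD) -/
def T_HER : Prop := ∀ n : ℕ, ∃ μ : ℕ → ℝ, Herm μ n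

/-- HNU: constants -/
def T_HNU : Prop := (∀ n : ℕ, 0 < hnu n ∧ hnu n ^ 3 * hc n = 2) ∧
  Tendsto (fun n => hnu n) atTop (𝓝 0)

/-- FOD (from HNU): the equation of `F_n` -/
def T_FOD : Prop := ∀ (μ : ℕ → ℝ) (n : ℕ), Herm μ n → ∃ D : ℂ → ℂ,
  (∀ s, HasDerivAt (FF μ n) (D s) s) ∧
  (∀ s : ℂ, HasDerivAt D ((s + (hnu n ^ 4 / 4 : ℝ) * s ^ 2) * FF μ n s) s) ∧
  (∀ x : ℝ, (FF μ n x).im = 0 ∧ (D x).im = 0) ∧ FF μ n 0 = 1 ∧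
  (∀ x : ℝ, 0 ≤ x → 0 < (FF μ n x).re ∧ (FF μ n x).re ≤ 1 ∧ (D x).re ≤ 0) ∧
  Tendsto (fun x : ℝ => (FF μ n x).re) atTop (𝓝 0) ∧
  Tendsto (fun x : ℝ => (D x).re) atTop (𝓝 0)

end Pool.Agent.CHF.Conv
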