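import Pool.Agent.CHF.ConvTargets

/-!
# CHF, convexity half, target FIT: multiplication by `t` of an inverse Fourier integral
-/

set_option autoImplicit false

open MeasureTheory Filter Topology Finset

noncomputable section

namespace Pool.Agent.CHF.Conv

private theorem FIT_norm_exp (t y : ℝ) : ‖Complex.exp (Complex.I * y * t)‖ = 1 := by
  have h : Complex.I * (y : ℂ) * (t : ℂ) = ((y * t : ℝ) : ℂ) * Complex.I := by
    push_cast; ring
  rw [h]
  exact Complex.norm_exp_ofReal_mul_I _

private theorem FIT_int (F : ℝ → ℂ) (hF : Integrable F) (t : ℝ) :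
    Integrable (fun y : ℝ => F y * Complex.exp (Complex.I * y * t)) := by
  refine (hF.norm).mono' ?_ ?_
  · refine hF.aestronglyMeasurable.mul ?_
    exact (by fun_prop : Continuous fun y : ℝ => Complex.exp (Complex.I * y * t)).aestronglyMeasurable
  · refine Filter.Eventually.of_forall fun y => ?_
    rw [norm_mul, FIT_norm_exp, mul_one]

theorem cv_FIT : T_FIT := by
  intro F F' hd hF hF' t
  have hI1 := FIT_int F hF t
  have hI2 := FIT_int F' hF' t
  have hder : ∀ y : ℝ, HasDerivAt (fun y : ℝ => F y * Complex.exp (Complex.I * y * t))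
      (F' y * Complex.exp (Complex.I * y * t)
        + (Complex.I * t) * (F y * Complex.exp (Complex.I * y * t))) y := by
    intro y
    have h1 : HasDerivAt (fun y : ℝ => Complex.I * (y : ℂ) * (t : ℂ)) (Complex.I * 1 * (t : ℂ)) y :=
      ((Complex.ofRealCLM.hasDerivAt (x := y)).const_mul Complex.I).mul_const (t : ℂ)
    have h2 := (hd y).mul h1.cexp
    refine h2.congr_deriv ?_
    ring
  have h0 := integral_eq_zero_of_hasDerivAt_of_integrable hder
    (hI2.add (hI1.const_mul _)) hI1
  have h3 : (∫ y : ℝ, F' y * Complex.exp (Complex.I * y * t))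
      + (Complex.I * t) * ∫ y : ℝ, F y * Complex.exp (Complex.I * y * t) = 0 := by
    rw [← integral_const_mul, ← integral_add hI2 (hI1.const_mul _)]
    exact h0
  unfold FI
  have h4 : (∫ y : ℝ, Complex.I * F' y * Complex.exp (Complex.I * y * t))
      = Complex.I * ∫ y : ℝ, F' y * Complex.exp (Complex.I * y * t) := by
    rw [← integral_const_mul]
    refine integral_congr_ae (Filter.Eventually.of_forall fun y => ?_)
    simp only []
    ring
  rw [h4, eq_neg_of_add_eq_zero_left h3]
  have hI : Complex.I * Complex.I = -1 := Complex.I_mul_I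
  linear_combination (1 / (2 * (Real.pi : ℂ))) * (t : ℂ)
    * (∫ y : ℝ, F y * Complex.exp (Complex.I * y * t)) * hI

end Pool.Agent.CHF.Conv
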