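import Mathlib

/-!
# CHF: Chernoff's distribution is smaller than the normal distribution in the convex order

Project for MP_0e7bd3_pr (helper27).  All formulas are in the units `X_s = √2 W(s) - s²`, in which
every constant is `1`; the argmax of the problem is `2^{-1/3}` times the argmax of `X`.
-/

set_option autoImplicit false

open MeasureTheory ProbabilityTheory Filter Topology Set
open scoped ENNReal NNReal

noncomputable section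

namespace CHF

/-! ### The Airy function -/

/-- the integrand of the Airy integral along the line `Re = ρ` -/
def ker (ρ : ℝ) (z : ℂ) (y : ℝ) : ℂ :=
  Complex.exp (((ρ : ℂ) + y * Complex.I) ^ 3 / 3 - z * ((ρ : ℂ) + y * Complex.I))

/-- the Airy function `Ai z = (1/2π) ∫ exp((1+iy)³/3 - z(1+iy)) dy` -/
def Ai (z : ℂ) : ℂ := (1 / (2 * (Real.pi : ℂ))) * ∫ y : ℝ, ker 1 z y

/-- the Airy function on the real line -/
def ai (x : ℝ) : ℝ := (Ai (x : ℂ)).re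

/-- the density `g`, whose two-sided Laplace transform is `1 / Ai` -/
def g (t : ℝ) : ℝ :=
  (1 / (2 * Real.pi)) *
    ∫ y : ℝ, (Complex.exp ((y * t : ℝ) * Complex.I) / Ai (y * Complex.I)).re

/-! ### The process -/

variable {Ω : Type} [MeasurableSpace Ω]

/-- Two-sided Brownian motion with all paths good. -/
structure TSB (P : Measure Ω) (W : ℝ → Ω → ℝ) : Prop where
  prob : IsProbabilityMeasure P
  meas : ∀ t, Measurable (W t)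
  cont : ∀ ω, Continuous (fun t => W t ω)
  zero : ∀ ω, W 0 ω = 0
  coer : ∀ ω, Tendsto (fun s => Real.sqrt 2 * W s ω - s ^ 2) (cocompact ℝ) atBot
  fwd : ∀ z : ℝ, IsBrownianReal (fun (s : ℝ≥0) ω => W (z + s) ω - W z ω) P
  bwd : ∀ z : ℝ, IsBrownianReal (fun (s : ℝ≥0) ω => W (z - s) ω - W z ω) P
  ind : ∀ z : ℝ, IndepFun (fun ω (s : ℝ≥0) => W (z + s) ω - W z ω)
    (fun ω (s : ℝ≥0) => W (z - s) ω - W z ω) P

/-- `X_s = √2 W(s) - s²` -/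
def X (W : ℝ → Ω → ℝ) (s : ℝ) (ω : Ω) : ℝ := Real.sqrt 2 * W s ω - s ^ 2

/-- `M⁻_z = sup_{s ≤ z} X_s` -/
def Mm (W : ℝ → Ω → ℝ) (z : ℝ) (ω : Ω) : ℝ := sSup ((fun s => X W s ω) '' Iic z)

/-- `M⁺_z = sup_{s ≥ z} X_s` -/
def Mp (W : ℝ → Ω → ℝ) (z : ℝ) (ω : Ω) : ℝ := sSup ((fun s => X W s ω) '' Ici z)

/-- `S⁻_z = M⁻_z - X_z` -/
def Sm (W : ℝ → Ω → ℝ) (z : ℝ) (ω : Ω) : ℝ := Mm W z ω - X W z ω

/-- `S⁺_z = M⁺_z - X_z` -/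
def Sp (W : ℝ → Ω → ℝ) (z : ℝ) (ω : Ω) : ℝ := Mp W z ω - X W z ω

/-- `sup_{0 ≤ r ≤ δ} (X_{z+r} - X_z)` -/
def md (W : ℝ → Ω → ℝ) (z δ : ℝ) (ω : Ω) : ℝ :=
  sSup ((fun r => X W (z + r) ω - X W z ω) '' Icc 0 δ)

/-- `sup_{0 ≤ r ≤ δ} |W_{z+r} - W_z|` -/
def osc (W : ℝ → Ω → ℝ) (z δ : ℝ) (ω : Ω) : ℝ :=
  sSup ((fun r => |W (z + r) ω - W z ω|) '' Icc 0 δ)

/-- `u(w,y) = P(√2 W_s ≤ y + s² + 2ws for all s ≥ 0)` -/
def uu (P : Measure Ω) (W : ℝ → Ω → ℝ) (w y : ℝ) : ℝ :=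
  P.real {ω | ∀ s : ℝ, 0 ≤ s → Real.sqrt 2 * W s ω ≤ y + s ^ 2 + 2 * w * s}

/-- `E M⁻_z` -/
def cM (P : Measure Ω) (W : ℝ → Ω → ℝ) (z : ℝ) : ℝ := ∫ ω, Mm W z ω ∂P

/-- `J = d E M⁻` -/
def IsJ (P : Measure Ω) (W : ℝ → Ω → ℝ) (J : Measure ℝ) : Prop :=
  ∀ a b : ℝ, a ≤ b → J (Ioc a b) = ENNReal.ofReal (cM P W b - cM P W a)

/-- `V_l(t,x)`, a superposition of exponential martingales of `√2 W` -/
def V (l t x : ℝ) : ℝ := Real.exp (t * x - 2 / 3 * t ^ 3 - l * t) * ai (t ^ 2 - x + l)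

/-- `H(s,x) = ∫_x^∞ V(s, s² - y) dy` -/
def Hf (l s x : ℝ) : ℝ := ∫ y in Ioi x, V l s (s ^ 2 - y)

/-- `E Φ(s)` -/
def EPhi (P : Measure Ω) (W : ℝ → Ω → ℝ) (l s : ℝ) : ℝ := ∫ ω, Hf l s (Sm W s ω) ∂P

/-- `φ(s) = e^{s³/3 - l s}` -/
def ph (l s : ℝ) : ℝ := Real.exp (s ^ 3 / 3 - l * s)

/-- `Λ(z,η) = E sup (X + η 1_{s ≤ z})` -/
def Lam (P : Measure Ω) (W : ℝ → Ω → ℝ) (z η : ℝ) : ℝ :=
  ∫ ω, max (Mm W z ω + η) (Mp W z ω) ∂P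

/-- `FF z = P(M⁻_z ≥ M⁺_z)`, the distribution function of the argmax -/
def FF (P : Measure Ω) (W : ℝ → Ω → ℝ) (z : ℝ) : ℝ := P.real {ω | Mp W z ω ≤ Mm W z ω}

end CHF
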