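import Pool.Agent.CHF.Defs

/-!
# CHF: targets A (the Airy function)

Each target is a proposition `T_XXX`; its docstring contains the complete proof.  Other targets
may be taken as hypotheses of the theorem to be proved.
-/

set_option autoImplicit false

open MeasureTheory ProbabilityTheory Filter Topology Set
open scoped ENNReal NNReal

noncomputable section

namespace CHF

/-- KIN.  `Re ((ρ+iy)³/3) = ρ³/3 - ρ y²` and `Re (z (ρ+iy)) = ρ Re z - y Im z`, which gives the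
modulus; for `ρ > 0` it is a Gaussian in `y`, hence integrable (`integrable_exp_neg_mul_sq`
after completing the square, or `integrable_cexp_quadratic`), and so is `|y|^k` times it. -/
def T_KIN : Prop := ∀ (ρ : ℝ) (z : ℂ),
  (∀ y : ℝ, ‖ker ρ z y‖ = Real.exp (ρ ^ 3 / 3 - ρ * y ^ 2 - ρ * z.re + y * z.im)) ∧
  (0 < ρ → ∀ k : ℕ, Integrable (fun y : ℝ => |y| ^ k * ‖ker ρ z y‖)) ∧
  (0 < ρ → Integrable (fun y : ℝ => ker ρ z y))

/-- SHI (from KIN).  The integral does not depend on `ρ > 0`.  Cauchy's theorem for the rectangle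
with corners `ρ ± iR`, `1 ± iR` (`Complex.integral_boundary_rect_eq_zero_of_differentiableOn`
applied to `w ↦ exp(w³/3 - z w)`; the horizontal sides are bounded by
`|ρ-1| exp(C - min(ρ,1) R² + R |Im z|) → 0`).  Alternatively differentiate in `ρ`:
`∂/∂ρ ker = -i ∂/∂y ker`, whose integral is `0`. -/
def T_SHI : Prop := ∀ (ρ : ℝ), 0 < ρ → ∀ z : ℂ,
  (1 / (2 * (Real.pi : ℂ))) * ∫ y : ℝ, ker ρ z y = Ai z

/-- ODE (from KIN).  Differentiate twice under the integral sign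
(`hasDerivAt_integral_of_dominated_loc_of_deriv_le`): with `p = 1 + iy`,
`Ai' z = (1/2π) ∫ -p ker`, `Ai'' z = (1/2π) ∫ p² ker`, and
`∫ (p² - z) exp(p³/3 - z p) dy = -i ∫ d/dy exp(p³/3 - z p) dy = 0`
(`integral_of_hasDerivAt_of_tendsto`). -/
def T_ODE : Prop := Differentiable ℂ Ai ∧ Differentiable ℂ (deriv Ai) ∧
  (∀ z : ℂ, deriv (deriv Ai) z = z * Ai z) ∧
  ∀ z : ℂ, deriv Ai z = (1 / (2 * (Real.pi : ℂ))) * ∫ y : ℝ, -(1 + y * Complex.I) * ker 1 z y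

/-- CNJ (from ODE).  Substitute `y ↦ -y` in the integral: `conj (ker 1 z y) = ker 1 (conj z) (-y)`.
The statements on the real line follow; the derivative of `ai` is the real part of the complex
derivative (`HasDerivAt.real_of_complex` or `HasDerivAt.comp_ofReal`). -/
def T_CNJ : Prop := (∀ z : ℂ, Ai ((starRingEnd ℂ) z) = (starRingEnd ℂ) (Ai z)) ∧
  (∀ z : ℂ, deriv Ai ((starRingEnd ℂ) z) = (starRingEnd ℂ) (deriv Ai z)) ∧
  (∀ x : ℝ, Ai (x : ℂ) = (ai x : ℂ)) ∧ (∀ x : ℝ, deriv Ai (x : ℂ) = ((deriv ai x : ℝ) : ℂ)) ∧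
  Differentiable ℝ ai ∧ Differentiable ℝ (deriv ai) ∧
  ∀ x : ℝ, deriv (deriv ai) x = x * ai x

/-- BDR (from KIN, SHI).  `|ai x| ≤ (1/2π) ∫ |ker ρ x y| dy = (1/2π) exp(ρ³/3 - ρ x) √(π/ρ)`
(`integral_gaussian`), and `√(π/ρ)/(2π) ≤ 1/√ρ`.  In particular `ai x → 0` as `x → ∞`. -/
def T_BDR : Prop := ∀ ρ x : ℝ, 0 < ρ → |ai x| ≤ Real.exp (ρ ^ 3 / 3 - ρ * x) / Real.sqrt ρ

/-- POS (from CNJ, BDR, ODE).  (1) `ai 1 > 0`: at `ρ = 1`, `z = 1` the integrand is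
`e^{-2/3} exp(-y² - i y³/3)`, so `2π e^{2/3} ai 1 = ∫ e^{-y²} cos(y³/3) dy ≥
∫ e^{-y²} (1 - y⁶/18) dy = √π (1 - 15/144) > 0`.
(2) `a = ai` satisfies `a'' = x a`, `a(x) → 0` as `x → ∞` (BDR with `ρ = 1`), and `a` does not
vanish identically on any half line `[x₀,∞)`: otherwise the entire function `Ai` would vanish
identically (identity theorem), contradicting (1).
(3) On `[0, ∞)`: `(a²)'' = 2a'² + 2x a² ≥ 0`, so `a²` is convex, `≥ 0`, and tends to `0`; hence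
`a²` is nonincreasing on `[0,∞)`.  If `a(x₀) = 0` for some `x₀ ≥ 0`, then `a = 0` on `[x₀, ∞)`,
contradiction to (2).  So `a` has no zero on `[0,∞)` and is positive by (1) (intermediate value
theorem).  `(a²)' = 2 a a'` is nondecreasing and `≤ 0`; if it vanished at some `x₀ ≥ 0` it would
vanish on `[x₀,∞)` and `a²` would be constant there, so `= 0`, impossible: `a' < 0`. -/
def T_POS : Prop := (∀ x : ℝ, 0 ≤ x → 0 < ai x ∧ deriv ai x < 0) ∧
  Tendsto ai atTop (𝓝 0) ∧ AntitoneOn ai (Ici 0)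

/-- NVI (from ODE, CNJ, POS).  `N(y) = |Ai(iy)|²` satisfies, with `b(y) = Ai(iy)`,
`b'' = -(iy) b`, `N'' = 2|b'|² + 2 Re(b'' b̄) = 2|b'|² ≥ 0`, and `N` is even by CNJ, so it is
nondecreasing on `[0,∞)`. -/
def T_NVI : Prop := (∀ y : ℝ, ai 0 ≤ ‖Ai (y * Complex.I)‖) ∧ (∀ y : ℝ, Ai (y * Complex.I) ≠ 0) ∧
  ∀ y y' : ℝ, 0 ≤ y → y ≤ y' → ‖Ai (y * Complex.I)‖ ≤ ‖Ai (y' * Complex.I)‖

/-- RIC (from ODE, NVI).  Forward invariant box.  `b(y) = Ai(iy) ≠ 0`,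
`θ = b'/b = i Ai'(iy)/Ai(iy) = α - iβ`, `θ' = -iy - θ²`, that is `α' = β² - α²`,
`β' = y - 2αβ`.  The box `γ ≤ α ≤ y/(2γ)`, `γ ≤ β ≤ y/(2γ)` is forward invariant for
`y ≥ y₀`: on `α = γ`: `α' = β² - γ² ≥ 0`; on `β = γ`: `β' = y - 2αγ ≥ 0`; on `α = y/(2γ)`:
`α' ≤ 0 < 1/(2γ)`; on `β = y/(2γ)`: `β' = y - 2αβ ≤ y - 2γβ = 0 < 1/(2γ)`.  To make the first
exit argument rigorous, use Gronwall/linear comparison for the four functions
`α-γ`, `β-γ`, `y/(2γ)-α`, `y/(2γ)-β`: each satisfies `f' ≥ -C f - C (sum of negative parts of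
the others)` on bounded intervals, so the sum of the squares of the negative parts `n` satisfies
`n' ≤ C n`, `n(y₀) = 0`, hence `n = 0` (or perturb `γ`).  Then `(log|b|)' = α ≥ γ`. -/
def T_RIC : Prop := ∀ γ y₀ : ℝ, 0 < γ → 0 < y₀ →
  (let θ : ℂ := Complex.I * deriv Ai (y₀ * Complex.I) / Ai (y₀ * Complex.I)
   γ ≤ θ.re ∧ θ.re ≤ y₀ / (2 * γ) ∧ γ ≤ -θ.im ∧ -θ.im ≤ y₀ / (2 * γ)) →
  ∀ y : ℝ, y₀ ≤ y →
    Real.exp (γ * (y - y₀)) * ‖Ai (y₀ * Complex.I)‖ ≤ ‖Ai (y * Complex.I)‖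

/-- GRW (from RIC, NVI, ODE, CNJ, POS).  No numerics: with `b(y) = Ai(iy)`, `N = |b|²` (NVI):
`N'(0) = 2 Re (i Ai'(0) Ai(0)) = 0`, `N'' = 2|b'|² ≥ 0` and `N''(0) > 0`, so `N'(1) > 0`;
`K = Im (b' b̄)` satisfies `K' = Im (b'' b̄) = -y N ≤ 0`, `K(0) = ai'(0) ai(0) < 0`, so `K(1) < 0`.
Hence `α(1) = N'(1)/(2N(1)) > 0`, `β(1) = -K(1)/N(1) > 0` (notation of RIC), and RIC applies with
`y₀ = 1` and `γ = min {α(1), β(1), 1/(2α(1)), 1/(2β(1))} > 0`.  So `|Ai(iy)| ≥ c e^{γ y}` for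
`y ≥ 1`, by NVI for `0 ≤ y ≤ 1` (smaller `c`), by CNJ for `y < 0`. -/
def T_GRW : Prop := ∃ c γ : ℝ, 0 < c ∧ 0 < γ ∧
  ∀ y : ℝ, c * Real.exp (γ * |y|) ≤ ‖Ai (y * Complex.I)‖

/-- CHR.  Let `ν` be a finite measure with `∫ e^{-l t} dν = 1/ai l` for all `l > 0`.  For
`Re s > 0` put `h(s) = ∫ e^{-st} dν(t)`: it is holomorphic (`ProbabilityTheory.complexMGF`,
`differentiableOn_complexMGF`, or differentiation under the integral; the integral converges
absolutely because `|e^{-st}| = e^{-Re s t}`), `h(s) Ai(s) = 1` for real `s > 0`, hence for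
all `Re s > 0` by the identity theorem (`AnalyticOnNhd.eqOn_of_preconnected_of_frequently_eq`).
Let `s = ε + iy`, `ε → 0+`: dominated convergence with `|e^{-(ε+iy)t}| = e^{-εt} ≤ 1 + e^{-t}`
and continuity of `Ai`. -/
def T_CHR : Prop := ∀ ν : Measure ℝ, IsFiniteMeasure ν →
  (∀ l : ℝ, 0 < l → Integrable (fun t => Real.exp (-l * t)) ν ∧
    ∫ t, Real.exp (-l * t) ∂ν = 1 / ai l) →
  ∀ y : ℝ, (∫ t : ℝ, Complex.exp (-((y * t : ℝ) * Complex.I)) ∂ν) * Ai (y * Complex.I) = 1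

/-- GSM (from GRW, CNJ, NVI).  `1/|Ai(iy)| ≤ C e^{-γ|y|}`, so the integral defining `g` extends to
a holomorphic function of `t` in the strip `|Im t| < γ`; `g` is real analytic, and the
derivatives are the Fourier integrals with the factor `(iy)^k` (differentiate under the
integral).  By CNJ the integrand at `-y` is the conjugate of the integrand at `y`, so the integral
of `exp(iyt)/Ai(iy)` is real. -/
def T_GSM : Prop := AnalyticOnNhd ℝ g Set.univ ∧ (∀ k : ℕ, ∀ t : ℝ,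
  ((iteratedDeriv k g t : ℝ) : ℂ) = (1 / (2 * (Real.pi : ℂ))) *
    ∫ y : ℝ, (y * Complex.I) ^ k * Complex.exp ((y * t : ℝ) * Complex.I) / Ai (y * Complex.I)) ∧
  ∀ k : ℕ, Integrable (fun y : ℝ => (y * Complex.I) ^ k / Ai (y * Complex.I))

/-- DEN (from CHR, GSM, GRW).  A finite measure with characteristic function `1/Ai` (in the
sense of CHR) is `g dt`.  Convolve with the Gaussian `N(0,σ²)`: for `f` continuous with compact
support, `∫∫ f(t + σx) γ(dx) ν(dt) = ∫ f(s) g_σ(s) ds` with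
`g_σ(s) = (1/2π) ∫ e^{iys} e^{-σ²y²/2}/Ai(iy) dy` (Fubini; the Gaussian density is the Fourier
integral of `e^{-σ²y²/2}`).  As `σ → 0`, `g_σ → g` uniformly (dominated convergence, the error is
`(1/2π) ∫ (1 - e^{-σ²y²/2})/|Ai(iy)| dy`), and the left side tends to `∫ f dν`.  So
`∫ f dν = ∫ f g`, hence `g ≥ 0` (continuous), and `ν = g dt`. (Alternatively: `g` is integrable,
its Fourier transform is `1/Ai(iy)` by Fourier inversion, and use
`MeasureTheory.Measure.ext_of_charFun`.) -/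
def T_DEN : Prop := ∀ ν : Measure ℝ, IsFiniteMeasure ν →
  (∀ y : ℝ, (∫ t : ℝ, Complex.exp (-((y * t : ℝ) * Complex.I)) ∂ν) * Ai (y * Complex.I) = 1) →
  (∀ t, 0 ≤ g t) ∧ ν = volume.withDensity (fun t => ENNReal.ofReal (g t))

end CHF
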