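import Pool.Agent.CHF.TA

/-!
# CHF: targets B (the process; helper27)

Each target is a proposition `T_XXX`; its docstring contains the complete proof.  Other targets
(of all sections) may be taken as hypotheses of the theorem to be proved.
-/

set_option autoImplicit false

open MeasureTheory ProbabilityTheory Filter Topology Set
open scoped ENNReal NNReal

noncomputable section

namespace CHF

/-- the density of `J`: `j(s) = e^{-s³/3} g(s)` -/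
def jj (s : ℝ) : ℝ := Real.exp (-(s ^ 3 / 3)) * g s

/-- `σ = E (sup_{0 ≤ r ≤ 1} √2 W_r)²` -/
def sg {Ω : Type} [MeasurableSpace Ω] (P : Measure Ω) (W : ℝ → Ω → ℝ) : ℝ :=
  ∫ ω, (sSup ((fun r => Real.sqrt 2 * W r ω) '' Icc 0 1)) ^ 2 ∂P

/-! ### Paths -/

/-- PTH.  Deterministic facts for a fixed path: `f s = X W s ω` is continuous and tends to `-∞`
at `±∞`, so it is bounded above and attains its supremum on every closed half line; everything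
else is elementary (`Iic (z+δ) = Iic z ∪ Icc z (z+δ)`, `Ici z = Icc z (z+δ) ∪ Ici (z+δ)`);
`X_{z+r} - X_z = √2 (W_{z+r} - W_z) - 2 z r - r²`. Continuity of `z ↦ Mm z` follows from
`0 ≤ Mm (z+δ) - Mm z ≤ md z δ → 0` locally uniformly (uniform continuity of the path). -/
def T_PTH : Prop := ∀ (Ω : Type) [MeasurableSpace Ω] (P : Measure Ω) (W : ℝ → Ω → ℝ),
  TSB P W → ∀ ω : Ω,
  (∃ s₀, ∀ s, X W s ω ≤ X W s₀ ω) ∧
  (∀ z, ∃ s, s ≤ z ∧ X W s ω = Mm W z ω) ∧ (∀ z, ∃ s, z ≤ s ∧ X W s ω = Mp W z ω) ∧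
  (∀ s z, s ≤ z → X W s ω ≤ Mm W z ω) ∧ (∀ s z, z ≤ s → X W s ω ≤ Mp W z ω) ∧
  (∀ z, 0 ≤ Sm W z ω ∧ 0 ≤ Sp W z ω) ∧
  (Monotone fun z => Mm W z ω) ∧ (Antitone fun z => Mp W z ω) ∧
  (Continuous fun z => Mm W z ω) ∧ (Continuous fun z => Mp W z ω) ∧
  ∀ z δ, 0 ≤ δ →
    Mm W (z + δ) ω = max (Mm W z ω) (X W z ω + md W z δ ω) ∧
    Mp W z ω = max (X W z ω + md W z δ ω) (Mp W (z + δ) ω) ∧
    0 ≤ md W z δ ω ∧ 0 ≤ osc W z δ ω ∧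
    (∀ r ∈ Icc 0 δ, |W (z + r) ω - W z ω| ≤ osc W z δ ω) ∧
    (∀ r ∈ Icc 0 δ, X W (z + r) ω - X W z ω ≤ md W z δ ω) ∧
    (∀ r ∈ Icc 0 δ, |X W (z + r) ω - X W z ω| ≤
      Real.sqrt 2 * osc W z δ ω + (2 * |z| + δ) * δ) ∧
    md W z δ ω ≤ Real.sqrt 2 * osc W z δ ω + (2 * |z| + δ) * δ

/-- MEA (from PTH).  By continuity of the paths the suprema may be taken over rational times. -/
def T_MEA : Prop := ∀ (Ω : Type) [MeasurableSpace Ω] (P : Measure Ω) (W : ℝ → Ω → ℝ),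
  TSB P W → (∀ z, Measurable (X W z)) ∧ (∀ z, Measurable (Mm W z)) ∧
    (∀ z, Measurable (Mp W z)) ∧ (∀ z δ, 0 ≤ δ → Measurable (md W z δ) ∧
      Measurable (osc W z δ)) ∧
    Measurable (fun ω => sSup ((fun r => Real.sqrt 2 * W r ω) '' Icc 0 1)) ∧
    Measurable (fun p : Ω × ℝ => X W p.2 p.1) ∧ Measurable (fun p : Ω × ℝ => Mm W p.2 p.1)

/-- REV.  Time reversal: exchange `fwd` and `bwd`. -/
def T_REV : Prop := ∀ (Ω : Type) [MeasurableSpace Ω] (P : Measure Ω) (W : ℝ → Ω → ℝ),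
  TSB P W → TSB P (fun s ω => W (-s) ω)

/-- IND (from PTH, MEA).  All functionals on the left are measurable functions of the increments
`W (z - s) - W z`, `s ≥ 0` rational, all on the right of `W (z + s) - W z`; compose `TSB.ind`
with measurable maps (`IndepFun.comp`).  (Suprema over rational times; to have measurable maps on
`ℝ≥0 → ℝ` use countable suprema with values in `EReal` or `sSup` of countable families.)
In the second statement the independence is used at `z + δ`: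
`Mm z - X (z+δ) = sup_{s ≥ δ} (X_{z+δ-s} - X_{z+δ})` etc. -/
def T_IND : Prop := ∀ (Ω : Type) [MeasurableSpace Ω] (P : Measure Ω) (W : ℝ → Ω → ℝ),
  TSB P W → ∀ z δ : ℝ, 0 ≤ δ →
  IndepFun (Sm W z) (fun ω => (md W z δ ω, osc W z δ ω, W (z + δ) ω - W z ω)) P ∧
  IndepFun (Sp W (z + δ)) (fun ω => (Mm W z ω - X W (z + δ) ω, X W z ω - X W (z + δ) ω,
    md W z δ ω, osc W z δ ω)) P

/-- LAW (from PTH, MEA).  `Sp z ≤ y` iff `√2 (W_{z+s} - W_z) ≤ y + s² + 2zs` for all `s ≥ 0`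
(equivalently all rational `s ≥ 0`), `Sm z ≤ y` iff `√2 (W_{z-s} - W_z) ≤ y + s² - 2zs` for all
`s ≥ 0`.  Two processes satisfying `IsBrownianReal` have the same finite dimensional laws
(`IsPreBrownianReal.hasLaw`), so the probability that `B_q ∈ C_q` (`C_q` closed) for all rational
`q ≥ 0` is the same (decreasing limit over finite sets of `q`); compare with `z = 0`. The third
statement: `W (z+δ) - W z` has law `N(0,δ)` (`IsPreBrownianReal.hasLaw_eval`). -/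
def T_LAW : Prop := ∀ (Ω : Type) [MeasurableSpace Ω] (P : Measure Ω) (W : ℝ → Ω → ℝ),
  TSB P W → (∀ z y : ℝ, P.real {ω | Sp W z ω ≤ y} = uu P W z y) ∧
  (∀ z y : ℝ, P.real {ω | Sm W z ω ≤ y} = uu P W (-z) y) ∧
  ∀ (z : ℝ) (δ : ℝ≥0), HasLaw (fun ω => W (z + δ) ω - W z ω) (gaussianReal 0 δ) P

/-- MAX.  Maximal inequality for one Brownian motion.  For a finite grid
`0 = t₀ < ... < t_n ≤ T` the increments are independent, and Etemadi's inequality gives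
`P(max_k |B_{t_k}| ≥ 3y) ≤ 3 max_k P(|B_{t_k}| ≥ y)` (proof: let `τ` be the first `k` with
`|S_k| ≥ 3y`; `P(max ≥ 3y) ≤ P(|S_n| ≥ y) + ∑_k P(τ = k, |S_n - S_k| > 2y)`, independence, and
`P(|S_n - S_k| > 2y) ≤ P(|S_n| > y) + P(|S_k| > y) ≤ 2 max`).  With `y = x √T` and the Gaussian tail
`P(|B_t| ≥ x√T) ≤ 2 e^{-x²/2}`, `t ≤ T`, the bound is `6 e^{-x²/2}`.  Let the grid increase to the
rationals; almost surely the path is continuous, so the event over all real `s` is, up to a null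
set, the event over the rationals. (Any other proof, for instance with Doob's inequality
`MeasureTheory.maximal_ineq`, is fine.) -/
def T_MAX : Prop := ∀ (Ω : Type) [MeasurableSpace Ω] (P : Measure Ω) [IsProbabilityMeasure P]
  (B : ℝ≥0 → Ω → ℝ), IsBrownianReal B P → ∀ T x : ℝ, 0 < T → 0 < x →
  P.real {ω | ∃ s : ℝ≥0, (s : ℝ) ≤ T ∧ 3 * x * Real.sqrt T < |B s ω|} ≤
    6 * Real.exp (-x ^ 2 / 2)

/-- SUP (from MAX, PTH, MEA).  Scale invariant exponential moments of the oscillation.  By MAX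
applied to the Brownian motion `W (z+s) - W z` with `T = δ`:
`P(osc z δ > 3x √δ) ≤ 6 e^{-x²/2}` for all `x > 0`, hence `E e^{K osc/√δ} ≤ C(K)`
(layer cake, or sum over integers). -/
def T_SUP : Prop := ∀ (Ω : Type) [MeasurableSpace Ω] (P : Measure Ω) (W : ℝ → Ω → ℝ),
  TSB P W → ∀ K : ℝ, ∃ C : ℝ, ∀ z δ : ℝ, 0 < δ →
    Integrable (fun ω => Real.exp (K * (osc W z δ ω / Real.sqrt δ))) P ∧
    ∫ ω, Real.exp (K * (osc W z δ ω / Real.sqrt δ)) ∂P ≤ C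

/-- SCB (from SUP, LAW, MEA).  Law of the one-sided supremum: by scaling and equality of laws
`sup_{r ≤ δ} √2 (W_{z+r} - W_z)` has the law of `√δ B*`, `B* = sup_{r ≤ 1} √2 W_r`.  Stated for
nonnegative Borel functions. `σ = E B*²` is finite by SUP and positive because
`B* ≥ √2 max(W_1, 0)`; `B*` has all moments. -/
def T_SCB : Prop := ∀ (Ω : Type) [MeasurableSpace Ω] (P : Measure Ω) (W : ℝ → Ω → ℝ),
  TSB P W → 0 < sg P W ∧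
  (∀ k : ℕ, Integrable (fun ω => |sSup ((fun r => Real.sqrt 2 * W r ω) '' Icc 0 1)| ^ k) P) ∧
  ∀ (f : ℝ → ℝ), Measurable f → (∀ x, 0 ≤ f x) → ∀ z δ : ℝ, 0 < δ →
    ∫⁻ ω, ENNReal.ofReal (f (sSup ((fun r => Real.sqrt 2 * (W (z + r) ω - W z ω)) '' Icc 0 δ))) ∂P =
    ∫⁻ ω, ENNReal.ofReal
      (f (Real.sqrt δ * sSup ((fun r => Real.sqrt 2 * W r ω) '' Icc 0 1))) ∂P

/-- UMO.  `uu` is monotone in both variables (`2ws ≤ 2w's` for `s ≥ 0`), between `0` and `1`, zero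
for `y < 0` (take `s = 0`), and tends to `1` as `y → ∞` (`s ↦ √2 W_s - s² - 2ws` is bounded above
for every path by `TSB.coer`, also with the linear term since `√2 W_s - s²/2 ...`; precisely
`√2 W_s - s² - 2ws` is continuous and, by LAW, `= Sp`-type: `P(Sp z ≤ y) → 1` as `Sp z < ∞`). -/
def T_UMO : Prop := ∀ (Ω : Type) [MeasurableSpace Ω] (P : Measure Ω) (W : ℝ → Ω → ℝ),
  TSB P W → (∀ w w' y y' : ℝ, w ≤ w' → y ≤ y' → uu P W w y ≤ uu P W w' y') ∧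
  (∀ w y : ℝ, 0 ≤ uu P W w y ∧ uu P W w y ≤ 1) ∧ (∀ w y : ℝ, y < 0 → uu P W w y = 0) ∧
  (∀ w : ℝ, Tendsto (uu P W w) atTop (𝓝 1)) ∧
  ∀ y : ℝ, Measurable (fun w => uu P W w y)

/-- UZE (from UMO, LAW).  `uu w y → 0` as `y ↓ 0`.  As `y ↓ 0` the events decrease to
`{√2 W_s ≤ s² + 2ws for all s ≥ 0} ⊆ {W_s ≤ C s for all s ∈ (0,1]}`, `C = 1 + |w|` roughly, which is
null: choose `s_n = 2^{-n²}`, `D_n = W_{s_n} - W_{s_{n+1}}` independent `N(0, s_n - s_{n+1})`,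
`P(D_n > 2 √s_n) ≥ c > 0`, so `D_n > 2√s_n` infinitely often (Borel–Cantelli,
`measure_limsup_eq_one`), while `P(|W_{s_{n+1}}| ≥ √s_n) ≤ 2 e^{-s_n/(2 s_{n+1})}` is summable, so
`W_{s_n} ≥ √s_n > C s_n` infinitely often.  (A cheaper variant: for every `k` and small `y` the
probability is at most `P(W_{s_i} ≤ y + C s_i, i ≤ k)`, and for widely separated `s_i` this is
at most `(3/4)^k`.) -/
def T_UZE : Prop := ∀ (Ω : Type) [MeasurableSpace Ω] (P : Measure Ω) (W : ℝ → Ω → ℝ),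
  TSB P W → ∀ w : ℝ, Tendsto (uu P W w) (𝓝[>] 0) (𝓝 0)

/-- INM (from PTH, MEA, SUP).  `X_z ≤ Mm z ≤ sup X ≤ max_k sup_{|s| ∈ [k,k+1]} X_s` and for
`s ∈ [k,k+1]`, `k ≥ 1`: `X_s ≤ √2 |W_k| + √2 osc(k,1) - k² =: Y_k - k²`, `(Y - k²)⁺ ≤ Y⁴/k⁶`, and
`E Y_k⁴ ≤ C k²`; so `E (sup X)⁺ ≤ E(√2 osc(0,1)) + ... + 2 ∑ C k²/k⁶ < ∞`.  Hence
`Mm z`, `Mp z` are integrable; `cM` is monotone, and continuous by PTH and dominated
convergence. -/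
def T_INM : Prop := ∀ (Ω : Type) [MeasurableSpace Ω] (P : Measure Ω) (W : ℝ → Ω → ℝ),
  TSB P W → (∀ z, Integrable (Mm W z) P) ∧ (∀ z, Integrable (Mp W z) P) ∧
  (∀ z, Integrable (X W z) P) ∧ Monotone (cM P W) ∧ Continuous (cM P W)

/-- JEX (from INM).  The Stieltjes measure of `cM`. -/
def T_JEX : Prop := ∀ (Ω : Type) [MeasurableSpace Ω] (P : Measure Ω) (W : ℝ → Ω → ℝ),
  TSB P W → ∃ J : Measure ℝ, IsJ P W J

/-! ### Partition lemmas (pure analysis) -/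

/-- PAR.  `J (a,b] = m b - m a`, `m` monotone and continuous.  (1) if
`|Q(z+δ) - Q z - φ z (m(z+δ) - m z)| ≤ ε δ` for `δ ≤ δ₀(ε)`, uniformly for `a ≤ z < z+δ ≤ b`, `φ`
continuous, then `Q b - Q a = ∫_{(a,b]} φ dJ`: take the partition into `n` equal parts; the sum of
`φ(z_i) (m(z_{i+1}) - m(z_i))` is `∫ φ_n dJ` with `φ_n → φ` uniformly.  (2) the one-sided
versions with a monotone function `v`: `∑ v(z_{i+1}) (m(z_{i+1}) - m(z_i)) - ∫ v dJ ≤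
∑ (v(z_{i+1}) - v(z_i)) (m(z_{i+1}) - m(z_i)) ≤ (v b - v a) max_i (m(z_{i+1}) - m(z_i)) → 0`. -/
def T_PAR : Prop := ∀ (m : ℝ → ℝ) (J : Measure ℝ), Monotone m → Continuous m →
  (∀ a b : ℝ, a ≤ b → J (Ioc a b) = ENNReal.ofReal (m b - m a)) →
  ∀ (Q : ℝ → ℝ) (a b : ℝ), a ≤ b →
  (∀ φ : ℝ → ℝ, Continuous φ →
    (∀ ε > 0, ∃ δ₀ > 0, ∀ z δ : ℝ, a ≤ z → 0 < δ → δ ≤ δ₀ → z + δ ≤ b →
      |Q (z + δ) - Q z - φ z * (m (z + δ) - m z)| ≤ ε * δ) →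
    Q b - Q a = ∫ s in Ioc a b, φ s ∂J) ∧
  (∀ v : ℝ → ℝ, Monotone v →
    (∀ ε > 0, ∃ δ₀ > 0, ∀ z δ : ℝ, a ≤ z → 0 < δ → δ ≤ δ₀ → z + δ ≤ b →
      Q (z + δ) - Q z ≤ v (z + δ) * (m (z + δ) - m z) + ε * δ) →
    Q b - Q a ≤ ∫ s in Ioc a b, v s ∂J) ∧
  (∀ v : ℝ → ℝ, Monotone v →
    (∀ ε > 0, ∃ δ₀ > 0, ∀ z δ : ℝ, a ≤ z → 0 < δ → δ ≤ δ₀ → z + δ ≤ b →
      v (z + δ) * (m (z + δ) - m z) - ε * δ ≤ Q (z + δ) - Q z) →
    ∫ s in Ioc a b, v s ∂J ≤ Q b - Q a)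

/-! ### The function `V` -/

/-- VIN (from SHI, KIN, CNJ).  Complete the cube: with `c = p + t`,
`c³/3 - c² t + c (x - l) = p³/3 - p (t² - x + l) - (2/3) t³ + t (x - l)`.  So for every `ρ > t`
the integral over `Re c = ρ` is `e^{t(x-l) - 2t³/3}` times the Airy integral over
`Re p = ρ - t > 0`. -/
def T_VIN : Prop := ∀ l t x ρ : ℝ, t < ρ →
  (V l t x : ℂ) = (1 / (2 * (Real.pi : ℂ))) * ∫ y : ℝ, Complex.exp
    (((ρ : ℂ) + y * Complex.I) ^ 3 / 3 - ((ρ : ℂ) + y * Complex.I) ^ 2 * t +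
      ((ρ : ℂ) + y * Complex.I) * ((x : ℂ) - l))

/-- VBD (from BDR, CNJ, POS).  (1) `V l t (t² - y) = e^{-ty + t³/3 - lt} ai(y+l)` (algebra).
(2) For `κ > R ≥ |t|` use BDR with `ρ = κ - t ≥ κ - R > 0`: `|V l t x| ≤ C e^{κ x}`.
(3) `|V l (s+δ) ((s+δ)² - y) - φ(s) ai l| ≤ C (|y| + δ) e^{C|y|}` for `|s| ≤ R`,
`0 ≤ δ ≤ 1`: by (1) and the mean value theorem; `|ai'|` is bounded by `C e^{C|y|}` as well
(`ai'' = x ai` and BDR with `ρ = 1`, integrate from `0`).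
(4) continuity of `V` in `(t,x)`. -/
def T_VBD : Prop := ∀ l : ℝ,
  (∀ t y : ℝ, V l t (t ^ 2 - y) = Real.exp (-(t * y) + t ^ 3 / 3 - l * t) * ai (y + l)) ∧
  (∀ R κ : ℝ, R < κ → ∃ C : ℝ, ∀ t x : ℝ, |t| ≤ R → |V l t x| ≤ C * Real.exp (κ * x)) ∧
  (∀ R : ℝ, ∃ C : ℝ, 0 ≤ C ∧ ∀ s δ y : ℝ, |s| ≤ R → 0 ≤ δ → δ ≤ 1 →
    |V l (s + δ) ((s + δ) ^ 2 - y) - ph l s * ai l| ≤ C * (|y| + δ) * Real.exp (C * |y|)) ∧
  Continuous (fun p : ℝ × ℝ => V l p.1 p.2)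

/-- GAU (from VIN, VBD).  `E exp(c √2 v) = exp(c² δ)` for `v ~ N(0,δ)`
(`complexMGF_gaussianReal`), so with `ρ > t + δ`, VIN at `t + δ` and Fubini
(`|exp(c√2 v)| = e^{ρ√2v}` is integrable, the `y`-integral is Gaussian) give VIN at `t`. -/
def T_GAU : Prop := ∀ (l t x : ℝ) (δ : ℝ≥0),
  Integrable (fun v => V l (t + δ) (x + Real.sqrt 2 * v)) (gaussianReal 0 δ) ∧
  ∫ v, V l (t + δ) (x + Real.sqrt 2 * v) ∂(gaussianReal 0 δ) = V l t x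

/-- TOT (from VIN, VBD, BDR, POS).  `∫_ℝ V l t x dx = 1` for `t < 0`: VIN with `ρ = 0` says that
`x ↦ V l t x` is the inverse Fourier transform of the integrable function
`y ↦ exp(-iy³/3 + t y² - i y l)` (value `1` at `y = 0`), and `V l t ·` is integrable (VBD (2) with
`κ > |t|` at `x → -∞` and `|V| ≤ C e^{(t+ρ)x}` with `0 < ρ < -t` at `x → +∞`); use Fourier
inversion (`MeasureTheory.Integrable.fourierInv_fourier_eq` or
`Continuous.fourierInv_fourier_eq`).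
Then `∫_0^∞ V l s (s² - y) dy → 1` as `s → -∞`: the part over `y < 0` is, by VBD (1) and BDR with
`ρ = 1`, at most `C e^{s³/3 + C|s|} ∫_{-∞}^0 e^{(-s-1) y} dy → 0`.  And
`∫_0^{s²/2} |V l s (s² - y)| dy → 0`: with `τ = -s`, BDR with `ρ = τ/2`:
`|V| ≤ C exp(τy - τ³/3 + lτ + τ³/24 - τ(y+l)/2)`, and for `y ≤ τ²/2` this is at most
`C exp(-τ³/24 + |l|τ)`. -/
def T_TOT : Prop := ∀ l : ℝ,
  (∀ t : ℝ, t < 0 → Integrable (fun x => V l t x) ∧ ∫ x, V l t x = 1) ∧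
  Tendsto (fun s => ∫ y in Ioi (0 : ℝ), V l s (s ^ 2 - y)) atBot (𝓝 1) ∧
  Tendsto (fun s => ∫ y in Ioc (0 : ℝ) (s ^ 2 / 2), |V l s (s ^ 2 - y)|) atBot (𝓝 0)

/-! ### The identity for `E Φ` -/

/-- PHJ (from PTH, MEA, IND, LAW, GAU, VBD, SUP).  Exact one-step formula.  Put `S = Sm z`,
`m = md z δ`, `D = W(z+δ) - W z`.  For `y > 0` consider `V(z+δ, z² - y + √2 D)`.  By IND
(`S` independent of `D`), LAW (`D ~ N(0,δ)`) and GAU,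
`E ∫_{y > S} V(z+δ, z² - y + √2 D) dy = E ∫_{y > S} V(z, z² - y) dy = EPhi z` (Fubini; everything
is dominated by `C e^{κ(z² - y + √2 D)}`, VBD (2), `κ` large; `y > S ≥ 0`).  On the other hand
`Sm(z+δ) = max(S, m) - (X_{z+δ} - X_z)` and `√2 D = (X_{z+δ} - X_z) + (z+δ)² - z²`, so the
substitution `y = y' + (X_{z+δ} - X_z)` gives `Hf (z+δ) (Sm (z+δ)) = ∫_{y > max(S,m)}
V(z+δ, z² - y + √2 D) dy`.  Subtract. -/
def T_PHJ : Prop := ∀ (Ω : Type) [MeasurableSpace Ω] (P : Measure Ω) (W : ℝ → Ω → ℝ),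
  TSB P W → ∀ l z δ : ℝ, 0 ≤ δ →
  Integrable (fun ω => Hf l z (Sm W z ω)) P ∧
  Integrable (fun ω => ∫ y in Ioc (Sm W z ω) (max (Sm W z ω) (md W z δ ω)),
    V l (z + δ) (z ^ 2 - y + Real.sqrt 2 * (W (z + δ) ω - W z ω))) P ∧
  EPhi P W l z - EPhi P W l (z + δ) =
    ∫ ω, (∫ y in Ioc (Sm W z ω) (max (Sm W z ω) (md W z δ ω)),
      V l (z + δ) (z ^ 2 - y + Real.sqrt 2 * (W (z + δ) ω - W z ω))) ∂P

/-- OSU (from SUP, IND, LAW, UMO, UZE, PTH).  For all `K` and bounded `z`: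
`E[(osc + δ)² e^{K osc} 1{Sm z < √2 osc + C δ}] = o(δ)` uniformly, where `osc = osc z δ`.
By independence of `Sm z` and `osc z δ` the left side is
`≤ E[(osc+δ)² e^{K osc} u(R, √2 osc + Cδ)]` (LAW: `P(Sm z < x) ≤ uu(-z) x ≤ uu R x`).  Split at
`osc ≤ η`: there `u ≤ u(R, √2η + Cδ) ≤ ε`, and `E (osc+δ)² e^{K osc} ≤ C' δ` by SUP
(`(osc+δ)² ≤ 2δ((osc/√δ)² + δ)`); on `osc > η` use `1 ≤ osc/η`, one more factor `√δ`. -/
def T_OSU : Prop := ∀ (Ω : Type) [MeasurableSpace Ω] (P : Measure Ω) (W : ℝ → Ω → ℝ),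
  TSB P W → ∀ R K C : ℝ, 0 ≤ C → ∀ ε > 0, ∃ δ₀ > 0, ∀ z δ : ℝ, |z| ≤ R → 0 < δ → δ ≤ δ₀ →
  Integrable (fun ω => (osc W z δ ω + δ) ^ 2 * Real.exp (K * osc W z δ ω)) P ∧
  ∫ ω in {ω | Sm W z ω < Real.sqrt 2 * osc W z δ ω + C * δ},
    (osc W z δ ω + δ) ^ 2 * Real.exp (K * osc W z δ ω) ∂P ≤ ε * δ

/-- OS3 (from SUP).  `E[(osc + δ); osc > η] ≤ C δ^{3/2}`-type bounds: for every `η > 0` and `K`,
`∫_{osc > η} (osc + δ) e^{K osc} ≤ ε δ` for small `δ`, uniformly in `z` (use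
`1 ≤ (osc/η)³` on the set and SUP). -/
def T_OS3 : Prop := ∀ (Ω : Type) [MeasurableSpace Ω] (P : Measure Ω) (W : ℝ → Ω → ℝ),
  TSB P W → ∀ K η : ℝ, 0 < η → ∀ ε > 0, ∃ δ₀ > 0, ∀ z δ : ℝ, 0 < δ → δ ≤ δ₀ →
  Integrable (fun ω => (osc W z δ ω + δ) * Real.exp (K * osc W z δ ω)) P ∧
  ∫ ω in {ω | η < osc W z δ ω},
    (osc W z δ ω + δ) * Real.exp (K * osc W z δ ω) ∂P ≤ ε * δ

/-- STP (from PHJ, OSU, VBD, PTH, INM).  In PHJ put `y' = y - (X_{z+δ} - X_z)`; then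
`z² - y + √2 D = (z+δ)² - y'`, and for `S < y ≤ max(S,m)` (so `0 ≤ y ≤ m`)
`|y'| ≤ 2(√2 osc + (2|z|+δ)δ) =: 2o`.  By VBD (3) the integrand is `φ(z) ai l + O((|y'|+δ)
e^{C|y'|})`.  The main term integrates to `φ(z) ai l E[(m - S)⁺] = φ(z) ai l (cM(z+δ) - cM z)`
(`Mm(z+δ) - Mm z = (m - S)⁺`, PTH).  The error is at most
`E[m 1{S < m} (2o+δ) C e^{2Co}]`, and `m ≤ o`: OSU. -/
def T_STP : Prop := ∀ (Ω : Type) [MeasurableSpace Ω] (P : Measure Ω) (W : ℝ → Ω → ℝ),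
  TSB P W → ∀ l R : ℝ, ∀ ε > 0, ∃ δ₀ > 0, ∀ z δ : ℝ, |z| ≤ R → 0 < δ → δ ≤ δ₀ →
  |EPhi P W l z - EPhi P W l (z + δ) -
    ph l z * ai l * (cM P W (z + δ) - cM P W z)| ≤ ε * δ

/-- PHI (from STP, PAR, INM).  PAR (1) with `Q = -EPhi`, `φ = ai l * ph l`. -/
def T_PHI : Prop := ∀ (Ω : Type) [MeasurableSpace Ω] (P : Measure Ω) (W : ℝ → Ω → ℝ),
  TSB P W → ∀ J : Measure ℝ, IsJ P W J → ∀ l a b : ℝ, a ≤ b →
  EPhi P W l a - EPhi P W l b = ai l * ∫ s in Ioc a b, ph l s ∂J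

/-- LMI (from TOT, LAW, UMO, POS, PTH, PHJ).  `EPhi l s = E ∫_{y > S} V(s, s² - y) dy`, `S = Sm s`.
As `s → -∞`, `∫_{y>0} V → 1` (TOT).  The difference is `E ∫_0^S V`, bounded by
`∫_0^{s²/2} |V| + P(S > s²/2) ∫_{s²/2}^∞ |V|`; the first term tends to `0` (TOT); for
`s²/2 ≥ |l|`, `V ≥ 0` on `y ≥ s²/2` (POS), so the last integral is bounded (TOT); and
`P(S > s²/2) = 1 - uu (-s) (s²/2) ≤ 1 - uu 0 (s²/2) → 0` (LAW, UMO). -/
def T_LMI : Prop := ∀ (Ω : Type) [MeasurableSpace Ω] (P : Measure Ω) (W : ℝ → Ω → ℝ),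
  TSB P W → ∀ l : ℝ, Tendsto (EPhi P W l) atBot (𝓝 1)

/-- LPL (from PHI, JEX, VBD, POS).  Let `l' < l` and `ai > 0` on `[l',∞)`.  There is `C` with
`ai(y+l) ≤ C ai(y+l')` for all `y ≥ 0` (for `y + l' ≥ 0` by monotonicity, otherwise compactness).
So `0 ≤ V l s (s² - y) ≤ C e^{-(l-l')s} V l' s (s² - y)` for `y ≥ 0`, and
`0 ≤ EPhi l s ≤ C e^{-(l-l')s} EPhi l' s ≤ C e^{-(l-l')s} EPhi l' 0` for `s ≥ 0`, the last step by
PHI (`ai l' > 0`). -/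
def T_LPL : Prop := ∀ (Ω : Type) [MeasurableSpace Ω] (P : Measure Ω) (W : ℝ → Ω → ℝ),
  TSB P W → ∀ l' l : ℝ, l' < l → (∀ x : ℝ, l' ≤ x → 0 < ai x) →
  Tendsto (EPhi P W l) atTop (𝓝 0)

/-- LAP (from PHI, LMI, LPL).  Let `a → -∞`, `b → ∞` in PHI; `ph l > 0`, monotone convergence
(`integrable_of_tendsto...`, `AECover.integrable_of_integral_bounded`). -/
def T_LAP : Prop := ∀ (Ω : Type) [MeasurableSpace Ω] (P : Measure Ω) (W : ℝ → Ω → ℝ),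
  TSB P W → ∀ J : Measure ℝ, IsJ P W J → ∀ l' l : ℝ, l' < l → (∀ x : ℝ, l' ≤ x → 0 < ai x) →
  Integrable (ph l) J ∧ ∫ s, ph l s ∂J = 1 / ai l

/-- JDE (from LAP, CHR, DEN, POS, CNJ, GSM).  Let `ν = ph 0 · J` (`withDensity`).  It is finite
(LAP with `l = 0` and some `l' < 0` such that `ai > 0` on `[l',∞)`; it exists because `ai` is
continuous and positive on `[0,∞)`, POS), and `∫ e^{-l s} dν = ∫ ph l dJ = 1/ai l` for `l > 0`.  By CHR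
and DEN `ν = g ds`, `g ≥ 0`, so `J = (1/ph 0) ν = jj ds`. -/
def T_JDE : Prop := ∀ (Ω : Type) [MeasurableSpace Ω] (P : Measure Ω) (W : ℝ → Ω → ℝ),
  TSB P W → ∀ J : Measure ℝ, IsJ P W J →
  (∀ t, 0 ≤ g t) ∧ J = volume.withDensity (fun s => ENNReal.ofReal (jj s)) ∧
  (∀ a b : ℝ, a ≤ b → cM P W b - cM P W a = ∫ s in a..b, jj s) ∧
  ∀ l' l : ℝ, l' < l → (∀ x : ℝ, l' ≤ x → 0 < ai x) →
    Integrable (fun t => Real.exp (-l * t) * g t) ∧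
    ∫ t, Real.exp (-l * t) * g t = 1 / ai l

/-! ### The distribution of the argmax -/

/-- R2 (from PTH, IND, LAW, INM, MEA).  `Mm(z+δ) - Mm z = (md - Sm)⁺ = ∫_0^{md} 1{Sm ≤ y} dy`;
take expectations, `Sm z` and `md z δ` are independent and `P(Sm z ≤ y) = uu (-z) y`. -/
def T_R2 : Prop := ∀ (Ω : Type) [MeasurableSpace Ω] (P : Measure Ω) (W : ℝ → Ω → ℝ),
  TSB P W → ∀ z δ : ℝ, 0 ≤ δ →
  cM P W (z + δ) - cM P W z = ∫ ω, (∫ y in (0 : ℝ)..(md W z δ ω), uu P W (-z) y) ∂P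

/-- LST (from PTH, IND, LAW, OS3, INM, UMO, MEA).  One-step bounds for `Lam`.  Put `p = Mm z`,
`N = X z + md z δ`, `f = Mp (z+δ)`, `Δ = max (max p N + η) f - max (p + η) (max N f)` (PTH).
Upper bound: `Δ ≤ (N-p)⁺ 1{f < N + η}` (if `N ≤ p` then `Δ = 0`; if `N > p`, `f ≥ N+η` then
`Δ = 0`; otherwise `Δ = N + η - max(p+η, N, f) ≤ N - p`).  Lower bound: `Δ ≥ 0`, and if `N > p`,
`f ≤ p + η` then `Δ = min (N-p) η`.
`f = X(z+δ) + Sp(z+δ)` with `Sp(z+δ)` independent of the past; `o = √2 osc + (2|z|+δ)δ` bounds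
`|X_{z+r} - X_z|`.  Upper: `E Δ ≤ E[(N-p)⁺ uu(z+δ)(η + N - X(z+δ))]`, and `N - X(z+δ) ≤ 2o`; on
`2o ≤ η'` this is `≤ uu(z+δ)(η+η') (N-p)⁺`; on `2o > η'` use `(N-p)⁺ ≤ md ≤ o` and OS3.
`E (N-p)⁺ = cM(z+δ) - cM z`.  Lower: on `N > p` we have `p ≥ X_z`, so
`{f ≤ p+η} ⊇ {Sp(z+δ) ≤ η + X_z - X(z+δ)}`, and on `o ≤ η' < η`:
`min((N-p)⁺, η) = (N-p)⁺`, `uu(z+δ)(η + X_z - X(z+δ)) ≥ uu(z+δ)(η-η')`. -/
def T_LST : Prop := ∀ (Ω : Type) [MeasurableSpace Ω] (P : Measure Ω) (W : ℝ → Ω → ℝ),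
  TSB P W → ∀ R η η' : ℝ, 0 < η' → η' < η → ∀ ε > 0, ∃ δ₀ > 0, ∀ z δ : ℝ,
  |z| ≤ R → 0 < δ → δ ≤ δ₀ →
  Lam P W (z + δ) η - Lam P W z η ≤
    uu P W (z + δ) (η + η') * (cM P W (z + δ) - cM P W z) + ε * δ ∧
  uu P W (z + δ) (η - η') * (cM P W (z + δ) - cM P W z) - ε * δ ≤
    Lam P W (z + δ) η - Lam P W z η

/-- R1 (from LST, PAR, UMO, INM). -/
def T_R1 : Prop := ∀ (Ω : Type) [MeasurableSpace Ω] (P : Measure Ω) (W : ℝ → Ω → ℝ),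
  TSB P W → ∀ J : Measure ℝ, IsJ P W J → ∀ a b η η' : ℝ, a ≤ b → 0 < η' → η' < η →
  ∫ s in Ioc a b, uu P W s (η - η') ∂J ≤ Lam P W b η - Lam P W a η ∧
  Lam P W b η - Lam P W a η ≤ ∫ s in Ioc a b, uu P W s (η + η') ∂J

/-- LDE (from INM, PTH).  `(max (Mm+η) Mp - max Mm Mp)/η → 1{Mp ≤ Mm}` pointwise as `η ↓ 0`,
between `0` and `1`; `max (Mm z) (Mp z) = sup X` does not depend on `z`. -/
def T_LDE : Prop := ∀ (Ω : Type) [MeasurableSpace Ω] (P : Measure Ω) (W : ℝ → Ω → ℝ),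
  TSB P W → (∀ z z' : ℝ, Lam P W z 0 = Lam P W z' 0) ∧
  ∀ z : ℝ, Tendsto (fun η => (Lam P W z η - Lam P W z 0) / η) (𝓝[>] 0) (𝓝 (FF P W z))

/-- ULM (from R1, LDE).  `D(η) = Lam b η - Lam a η` satisfies `D(η)/η → L = FF b - FF a` (LDE),
and with `U(η) = ∫_{(a,b]} uu s η dJ`, R1 with `η' = θη` gives
`U((1-θ)η) ≤ D(η) ≤ U((1+θ)η)`.  So `L/(1+θ) ≤ liminf U(η)/η ≤ limsup U(η)/η ≤ L/(1-θ)`. -/
def T_ULM : Prop := ∀ (Ω : Type) [MeasurableSpace Ω] (P : Measure Ω) (W : ℝ → Ω → ℝ),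
  TSB P W → ∀ J : Measure ℝ, IsJ P W J → ∀ a b : ℝ, a ≤ b →
  Tendsto (fun η => (∫ s in Ioc a b, uu P W s η ∂J) / η) (𝓝[>] 0)
    (𝓝 (FF P W b - FF P W a))

/-- KK1 (from ULM, JEX, JDE, UMO).  `∫_{(a,b]} uu s y dJ = ∫_a^b uu(s,y) jj(s) ds`. -/
def T_KK1 : Prop := ∀ (Ω : Type) [MeasurableSpace Ω] (P : Measure Ω) (W : ℝ → Ω → ℝ),
  TSB P W → ∀ a b M : ℝ, a ≤ b → 0 < M → ∀ ε > 0,
  ((∀ s ∈ Icc a b, jj s ≤ M) → ∀ᶠ y in 𝓝[>] (0 : ℝ),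
    (FF P W b - FF P W a - ε) * y ≤ M * ∫ s in a..b, uu P W s y) ∧
  ((∀ s ∈ Icc a b, M ≤ jj s) → ∀ᶠ y in 𝓝[>] (0 : ℝ),
    M * (∫ s in a..b, uu P W s y) ≤ (FF P W b - FF P W a + ε) * y)

/-- KK2 (from R2, SCB, UMO, INM, PTH).  `cM b - cM a = lim_{δ→0} (1/δ) ∫_a^b (cM(z+δ) - cM z) dz`
(continuity of `cM`), and by R2 the integrand is `E ∫_0^{md} uu(-z) y dy`.  For `z ∈ [a,b]`,
`δ ≤ 1`: `B*_z - Cδ ≤ md z δ ≤ B*_z + Cδ`, `B*_z = sup_{r ≤ δ} √2 (W_{z+r} - W_z)`, whose law is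
that of `√δ B*` (SCB).  If `∫_a^b uu(-z) y dz ≤ κ y` for `0 < y ≤ y₀`, then (Fubini)
`∫_a^b E ∫_0^{md} uu(-z) y dy dz ≤ E ∫_0^{√δB*+Cδ} (∫_a^b uu(-z) y dz) dy ≤
(κ/2) E (√δB*+Cδ)² + (b-a) E[(√δB*+Cδ); √δB*+Cδ > y₀] = (κ/2) σ δ + o(δ)`
(`1 ≤ (x/y₀)²` on the last set).  The lower bound is similar with `(√δB*-Cδ)⁺`. -/
def T_KK2 : Prop := ∀ (Ω : Type) [MeasurableSpace Ω] (P : Measure Ω) (W : ℝ → Ω → ℝ),
  TSB P W → ∀ a b κ : ℝ, a ≤ b → 0 ≤ κ →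
  ((∀ᶠ y in 𝓝[>] (0 : ℝ), ∫ z in a..b, uu P W (-z) y ≤ κ * y) →
    cM P W b - cM P W a ≤ sg P W / 2 * κ) ∧
  ((∀ᶠ y in 𝓝[>] (0 : ℝ), κ * y ≤ ∫ z in a..b, uu P W (-z) y) →
    sg P W / 2 * κ ≤ cM P W b - cM P W a)

/-- DNS (from KK1, KK2, JDE, JEX, SCB, PTH).  `jj` is continuous and nonnegative (JDE).  Let
`[a,b]` be a short interval and `0 ≤ m ≤ jj ≤ M` on `[a,b]`, `M > 0`.  Then by KK1 and KK2 (applied
to `[-b,-a]`; `∫_{-b}^{-a} uu(-z) y dz = ∫_a^b uu s y ds`)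
`(FF b - FF a)/M - ε ≤ (2/σ)(cM(-a) - cM(-b)) ≤ (FF b - FF a)/m + ε`, that is
`m (2/σ) ∫_a^b jj(-s) ds ≤ FF b - FF a ≤ M (2/σ) ∫_a^b jj(-s) ds` (JDE; for `m = 0` the lower
bound is trivial because `FF` is monotone, PTH).  Sum over a fine
partition of a given interval: `FF b - FF a = (2/σ) ∫_a^b jj(s) jj(-s) ds`, and
`jj(s) jj(-s) = g(s) g(-s)`. -/
def T_DNS : Prop := ∀ (Ω : Type) [MeasurableSpace Ω] (P : Measure Ω) (W : ℝ → Ω → ℝ),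
  TSB P W → ∀ a b : ℝ, a ≤ b →
  FF P W b - FF P W a = 2 / sg P W * ∫ s in a..b, g s * g (-s)

/-- FLM (from PTH, DNS, MEA, SCB, JDE, JEX).  `Mm z → -∞` as `z → -∞`, so `Mp z > Mm z` eventually, for every
path; symmetric at `+∞`.  Hence `∫ g(s) g(-s) ds = σ/2` and
`FF z = ∫_{-∞}^z g(s)g(-s) ds / ∫ g(s)g(-s) ds`. -/
def T_FLM : Prop := ∀ (Ω : Type) [MeasurableSpace Ω] (P : Measure Ω) (W : ℝ → Ω → ℝ),
  TSB P W → Tendsto (FF P W) atBot (𝓝 0) ∧ Tendsto (FF P W) atTop (𝓝 1) ∧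
  Integrable (fun s => g s * g (-s)) ∧ 0 < (∫ s, g s * g (-s)) ∧
  ∀ z : ℝ, FF P W z = (∫ s in Iic z, g s * g (-s)) / ∫ s, g s * g (-s)

/-- ZFF (from FLM, REV, PTH).  If `Z` is a maximizer then `{Z ≤ z} ⊆ {Mp z ≤ Mm z}`, so
`P(Z ≤ z) ≤ FF z`.  Apply this to the reversed process (REV) and `-Z`: by FLM the function `FF` is
the same for the reversed process, so `P(Z ≥ z) = P(-Z ≤ -z) ≤ FF(-z) = 1 - FF z` (the density
is even), hence `P(Z < z) ≥ FF z`. -/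
def T_ZFF : Prop := ∀ (Ω : Type) [MeasurableSpace Ω] (P : Measure Ω) (W : ℝ → Ω → ℝ),
  TSB P W → ∀ Z : Ω → ℝ, Measurable Z → (∀ᵐ ω ∂P, ∀ s, X W s ω ≤ X W (Z ω) ω) →
  ∀ z : ℝ, P.real {ω | Z ω ≤ z} = (∫ s in Iic z, g s * g (-s)) / ∫ s, g s * g (-s)

/-! ### Positivity of `g` -/

/-- CCV (from R2, UMO, LAW, PTH, MEA, INM).  `cM` is concave.  By R2
`cM(z+δ) - cM(z) = E F_z(md z δ)`, `F_z(x) = ∫_0^x uu(-z) y dy`, which is nondecreasing in `x ≥ 0`,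
and `F_{z'} ≤ F_z` for `z ≤ z'` (UMO).  `X_{z+r} - X_z = √2 (W_{z+r} - W_z) - 2zr - r²`, and the
processes `W_{z+r} - W_z`, `W_{z'+r} - W_{z'}` (`r ≥ 0` rational) have the same law, so
`md z' δ` has the law of `sup_{0≤r≤δ} (√2 (W_{z+r} - W_z) - 2z'r - r²) ≤ md z δ`.  (Equality of
laws of the suprema over rational `r ∈ [0,δ]` together with `δ`: the laws of finitely many
coordinates agree, `IsPreBrownianReal.hasLaw`; pass to the countable supremum by monotone limits,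
as in LAW and SCB.) -/
def T_CCV : Prop := ∀ (Ω : Type) [MeasurableSpace Ω] (P : Measure Ω) (W : ℝ → Ω → ℝ),
  TSB P W → ∀ z z' δ : ℝ, z ≤ z' → 0 ≤ δ →
  cM P W (z' + δ) - cM P W z' ≤ cM P W (z + δ) - cM P W z

/-- GPO (from CCV, JDE, JEX, GSM, POS).  `jj` is continuous, `≥ 0`, and by CCV and JDE
`∫_{z'}^{z'+δ} jj ≤ ∫_z^{z+δ} jj` for `z ≤ z'`; divide by `δ → 0`: `jj` is antitone.  If `g t₀ = 0`
then `jj t₀ = 0`, so `jj = 0` and `g = 0` on `[t₀,∞)`; `g` is real analytic on `ℝ` (GSM), so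
`g = 0` everywhere, contradicting `∫ e^{-t} g t dt = 1/ai 1 ≠ 0` (JDE with `l' = 0`, `l = 1`,
POS). -/
def T_GPO : Prop := ∀ (Ω : Type) [MeasurableSpace Ω] (P : Measure Ω) (W : ℝ → Ω → ℝ),
  TSB P W → ∀ t : ℝ, 0 < g t

/-! ### From the problem to `TSB` -/

/-- the two-sided Brownian motion of the problem -/
def B2 {Ω : Type} (W₁ W₂ : ℝ≥0 → Ω → ℝ) (t : ℝ) (ω : Ω) : ℝ :=
  if 0 ≤ t then W₁ t.toNNReal ω else W₂ (-t).toNNReal ω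

/-- TS1.  Forward and backward increments of `B2` at every `z` are independent Brownian motions.
`B2` is a centred Gaussian process (`W₁`, `W₂` are independent Gaussian processes) with
`Cov(B2 s, B2 t) = min |s| |t|` if `st > 0` and `0` otherwise.  So the pair of processes
`(B2(z+s) - B2 z)_s`, `(B2(z-s) - B2 z)_s` is jointly Gaussian, centred, the covariance of each is
`min s t`, and they are uncorrelated with each other.  Use the characterization of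
`IsPreBrownianReal` by covariance (Mathlib/Probability/BrownianMotion/Basic.lean, line ~134) and
the independence lemmas for Gaussian processes
(Mathlib/Probability/Distributions/Gaussian/IsGaussianProcess/Independence.lean).  Alternatively
by cases: for `z ≥ 0` the forward process is `W₁(z+s) - W₁ z` (`IsPreBrownianReal.shift`,
`indepFun_shift`), and the backward process is built from `W₁ |[0,z]` and `W₂`; the case `z < 0`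
by symmetry (exchange `W₁` and `W₂`, up to the null set where `W₁ 0 ≠ 0` or `W₂ 0 ≠ 0`). -/
def T_TS1 : Prop := ∀ (Ω : Type) [MeasurableSpace Ω] (P : Measure Ω) [IsProbabilityMeasure P]
  (W₁ W₂ : ℝ≥0 → Ω → ℝ), IsBrownianReal W₁ P → IsBrownianReal W₂ P →
  IndepFun (fun ω t => W₁ t ω) (fun ω t => W₂ t ω) P → ∀ z : ℝ,
  IsBrownianReal (fun (s : ℝ≥0) ω => B2 W₁ W₂ (z + s) ω - B2 W₁ W₂ z ω) P ∧
  IsBrownianReal (fun (s : ℝ≥0) ω => B2 W₁ W₂ (z - s) ω - B2 W₁ W₂ z ω) P ∧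
  IndepFun (fun ω (s : ℝ≥0) => B2 W₁ W₂ (z + s) ω - B2 W₁ W₂ z ω)
    (fun ω (s : ℝ≥0) => B2 W₁ W₂ (z - s) ω - B2 W₁ W₂ z ω) P

/-- TS2 (from MAX).  By MAX with `T = 2^k`, `x = k` and Borel-Cantelli, a.s. for all large `k`:
`|B s| ≤ 3k 2^{k/2}` for `s ≤ 2^k`; so for `2^{k-1} ≤ s ≤ 2^k`: `|B s|/s² ≤ 12 k 2^{-3k/2} → 0`. -/
def T_TS2 : Prop := ∀ (Ω : Type) [MeasurableSpace Ω] (P : Measure Ω) [IsProbabilityMeasure P]
  (B : ℝ≥0 → Ω → ℝ), IsBrownianReal B P →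
  ∀ᵐ ω ∂P, Tendsto (fun s : ℝ≥0 => B s ω / (s : ℝ) ^ 2) atTop (𝓝 0)

/-- TS3.  A version with all paths good.  For rational `q` let `V_q` be a measurable function with
`V_q = W⁰ q` a.s.  The set of `ω` with all the good properties and `V_q ω = W⁰ q ω` for all
rational `q` has full measure, so it contains a measurable set `G` of full measure.  Put
`W t ω = W⁰ t ω` for `ω ∈ G` and `0` otherwise.  Then `W q = 1_G V_q` is measurable for rational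
`q`, and `W t = lim W q_n` (`q_n → t`) is measurable (`measurable_of_tendsto_metrizable`). -/
def T_TS3 : Prop := ∀ (Ω : Type) [MeasurableSpace Ω] (P : Measure Ω) [IsProbabilityMeasure P]
  (W₀ : ℝ → Ω → ℝ), (∀ t, AEMeasurable (W₀ t) P) →
  (∀ᵐ ω ∂P, Continuous (fun t => W₀ t ω) ∧ W₀ 0 ω = 0 ∧
    Tendsto (fun s => Real.sqrt 2 * W₀ s ω - s ^ 2) (cocompact ℝ) atBot) →
  ∃ W : ℝ → Ω → ℝ, (∀ t, Measurable (W t)) ∧ (∀ ω, Continuous (fun t => W t ω)) ∧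
    (∀ ω, W 0 ω = 0) ∧
    (∀ ω, Tendsto (fun s => Real.sqrt 2 * W s ω - s ^ 2) (cocompact ℝ) atBot) ∧
    ∀ᵐ ω ∂P, ∀ t, W t ω = W₀ t ω

/-- TSC (from TS1, TS2, TS3).  Apply TS3 to `W₀(s) = 2^{1/6} B2 (2^{-1/3} s)`: it is a.s. continuous
(`W₁ 0 = W₂ 0 = 0` a.s.), and `√2 W₀(s) - s² → -∞` a.s. by TS2 for `W₁` and `W₂`.  For every `z`
the forward and backward increments of `W₀` are `2^{1/6}` times those of `B2` at `2^{-1/3} z`, at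
time `2^{-1/3} s`: Brownian motions by `IsBrownianReal.smul` with `c = 2^{-1/3}`
(`(√c)⁻¹ = 2^{1/6}`) and independent by TS1 (`IndepFun.comp`).  These properties pass from `W₀` to
`W`, because a.s. all paths coincide (`IsPreBrownianReal.congr`, `IndepFun.congr`).
`X W (2^{1/3} t) = √2 2^{1/6} B2(t) - 2^{2/3} t² = 2^{2/3} (B2(t) - t²)`. -/
def T_TSC : Prop := ∀ (Ω : Type) [MeasurableSpace Ω] (P : Measure Ω) [IsProbabilityMeasure P]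
  (W₁ W₂ : ℝ≥0 → Ω → ℝ), IsBrownianReal W₁ P → IsBrownianReal W₂ P →
  IndepFun (fun ω t => W₁ t ω) (fun ω t => W₂ t ω) P →
  ∃ W : ℝ → Ω → ℝ, TSB P W ∧ ∀ᵐ ω ∂P, ∀ t : ℝ,
    X W ((2 : ℝ) ^ (1 / 3 : ℝ) * t) ω = (2 : ℝ) ^ (2 / 3 : ℝ) * (B2 W₁ W₂ t ω - t ^ 2)

end CHF
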