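import Pool.Agent.CHF.TB

/-!
# CHF: targets F (final part; helper27, the argument for `QSG` is due to helper77)

Each target is a proposition `T_XXX`; its docstring contains the complete proof.  Other targets
(of all sections) may be taken as hypotheses of the theorem to be proved.
-/

set_option autoImplicit false

open MeasureTheory ProbabilityTheory Filter Topology Set
open scoped ENNReal NNReal

noncomputable section

namespace CHF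

/-- the distribution function of the standard normal distribution -/
def Nc (x : ℝ) : ℝ := cdf (gaussianReal 0 1) x

/-- H4 (convexity half, helper26).  The third derivative of `-log g` is nondecreasing. -/
def T_H4 : Prop := (∀ t : ℝ, 0 < g t) →
  Monotone (iteratedDeriv 3 (fun t : ℝ => -Real.log (g t)))

/-- UNQ (from FLM, ZFF, PTH, MEA).  The maximizer of `X` is a.s. unique.  Let `Z₋ ≤ Z₊` be the
smallest and the largest maximizer of the path (they exist, PTH).  `{Z₋ ≤ z} = {Mp z ≤ Mm z}` and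
`{Z₊ < z} = {Mp z < Mm z}`, so both are measurable (MEA; `measurable_of_Iic`, `measurable_of_Iio`).
By ZFF both have the distribution function `z ↦ (∫_{Iic z} g g(-·))/∫ g g(-·)`.  So for every
rational `z` the event `{Z₋ ≤ z < Z₊} = {Z₋ ≤ z} \ {Z₊ ≤ z}` is null, hence `Z₋ = Z₊` a.s. -/
def T_UNQ : Prop := ∀ (Ω : Type) [MeasurableSpace Ω] (P : Measure Ω) (W : ℝ → Ω → ℝ),
  TSB P W → ∀ᵐ ω ∂P, ∃! s₀ : ℝ, ∀ s, X W s ω ≤ X W s₀ ω

/-- ZPR (from TSC, ZFF, UNQ, GPO, FLM).  With `W` from TSC, `t` maximizes `B2 - t²` iff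
`2^{1/3} t` maximizes `X W` (for almost all `ω`); so `Z' = 2^{1/3} Z` satisfies the hypothesis of
ZFF and `{Z ≤ z} = {Z' ≤ 2^{1/3} z}`.  If `Z` is only a.e. measurable replace it by a measurable
version (`AEMeasurable.mk`); the value of `P.real` does not change (`measureReal_congr`). -/
def T_ZPR : Prop := ∀ (Ω : Type) [MeasurableSpace Ω] (P : Measure Ω) [IsProbabilityMeasure P]
  (W₁ W₂ : ℝ≥0 → Ω → ℝ), IsBrownianReal W₁ P → IsBrownianReal W₂ P →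
  IndepFun (fun ω t => W₁ t ω) (fun ω t => W₂ t ω) P →
  (∀ t : ℝ, 0 < g t) ∧ Integrable (fun s => g s * g (-s)) ∧ 0 < (∫ s, g s * g (-s)) ∧
  (∀ᵐ ω ∂P, ∃! t₀ : ℝ, ∀ t, B2 W₁ W₂ t ω - t ^ 2 ≤ B2 W₁ W₂ t₀ ω - t₀ ^ 2) ∧
  ∀ Z : Ω → ℝ, AEMeasurable Z P →
    (∀ᵐ ω ∂P, ∀ t, B2 W₁ W₂ t ω - t ^ 2 ≤ B2 W₁ W₂ (Z ω) ω - Z ω ^ 2) →
    ∀ z : ℝ, P.real {ω | Z ω ≤ z} =
      (∫ s in Iic ((2 : ℝ) ^ (1 / 3 : ℝ) * z), g s * g (-s)) / ∫ s, g s * g (-s)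

/-- NRM.  The normal distribution function: derivative `φ` (`cdf μ x = μ.real (Iic x)`,
`gaussianReal` has the continuous density `gaussianPDFReal 0 1 > 0`; fundamental theorem of
calculus), strictly increasing, `Φ(0) = 1/2` (symmetry, `gaussianReal_map_neg`), limits `0`, `1`
(`tendsto_cdf_atBot`, `tendsto_cdf_atTop`), intermediate value theorem. -/
def T_NRM : Prop := StrictMono Nc ∧ Continuous Nc ∧
  (∀ x : ℝ, HasDerivAt Nc (gaussianPDFReal 0 1 x) x) ∧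
  Nc 0 = 1 / 2 ∧ (∀ x : ℝ, 0 < Nc x ∧ Nc x < 1) ∧ Tendsto Nc atTop (𝓝 1) ∧
  Tendsto Nc atBot (𝓝 0) ∧ ∀ p : ℝ, 0 < p → p < 1 → ∃ x : ℝ, Nc x = p

/-- QDE (from NRM).  `F x = ∫_{Iic x} e^{-V}` is differentiable with `F' = e^{-V}` (fundamental
theorem of calculus), strictly increasing, with values in `(0,1)`, `F(0) = 1/2` (even density),
`F → 1` at `∞`.  `T` exists and is unique by NRM.  `T` is continuous and `T' = e^{-V}/φ(T) > 0`
(inverse function: `HasDerivAt.of_local_left_inverse` for a local inverse of `Nc`, or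
`HasStrictDerivAt.to_localInverse`; `T = Nc⁻¹ ∘ F`).  `φ = gaussianPDFReal 0 1` satisfies
`φ' = -x φ`, so `T'` is again differentiable and `T'' = T' (T T' - V')`; hence `T` is `C²`.
`T 0 = 0` and `T → ∞` by strict monotonicity of `Nc`. -/
def T_QDE : Prop := ∀ V : ℝ → ℝ, ContDiff ℝ 3 V → (∀ w, V (-w) = V w) →
  Integrable (fun w => Real.exp (-V w)) → (∫ w, Real.exp (-V w)) = 1 →
  (∃ T : ℝ → ℝ, ∀ x, Nc (T x) = ∫ s in Iic x, Real.exp (-V s)) ∧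
  ∀ T : ℝ → ℝ, (∀ x, Nc (T x) = ∫ s in Iic x, Real.exp (-V s)) →
    ContDiff ℝ 2 T ∧ T 0 = 0 ∧ (∀ x, 0 < deriv T x) ∧ deriv V 0 = 0 ∧
    (∀ x, deriv (deriv T) x = deriv T x * (T x * deriv T x - deriv V x)) ∧
    Tendsto T atTop atTop

/-- QSG.  Put `m = T T' - V'`, `q = T'² - V''`.  Then `m 0 = 0`, `T'' = T' m`, `m' = q + T T' m`,
`q' = 2 T' T'' - V''' = 2 T'² m - V''' ≤ 2 T'² m` on `(0,∞)`.  Suppose `m x₂ < 0`, `x₂ > 0`.
Let `w₁` be the last zero of `m` before `x₂`: `m w₁ = 0`, `m < 0` on `(w₁,x₂]`, so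
`q w₁ = m' w₁ ≤ 0`.  If `x₃` is the first zero of `m` after `x₂`, then on `(w₁,x₃)`: `m < 0`, so
`q' ≤ 0`, `q ≤ 0`, `m' ≤ T T' m ≤ 0`, so `m` is nonincreasing on `[w₁,x₃]` and `m x₃ < 0`, a
contradiction.  So `m < 0` on `(w₁,∞)` and `m` is nonincreasing there: `m ≤ -c` on `[x₂,∞)` with
`c = -m x₂ > 0`.  Then `(T' + c T)' = T' (m + c) ≤ 0`, so `c T ≤ T' + c T` is bounded above on
`[x₂,∞)`: contradiction to `T → ∞`. -/
def T_QSG : Prop := ∀ T V : ℝ → ℝ, ContDiff ℝ 3 V → ContDiff ℝ 2 T → T 0 = 0 →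
  (∀ x, 0 < deriv T x) → deriv V 0 = 0 →
  (∀ x, deriv (deriv T) x = deriv T x * (T x * deriv T x - deriv V x)) →
  MonotoneOn (deriv (deriv V)) (Ici 0) → Tendsto T atTop atTop →
  ∀ x, 0 ≤ x → 0 ≤ T x * deriv T x - deriv V x

/-- QCV (from QDE, QSG, NRM).  `T'' = T' m ≥ 0` on `(0,∞)`: `convexOn_of_deriv2_nonneg` (or
`MonotoneOn.convexOn_of_deriv`).  Uniqueness by injectivity of `Nc`. -/
def T_QCV : Prop := ∀ V : ℝ → ℝ, ContDiff ℝ 3 V → (∀ w, V (-w) = V w) →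
  Integrable (fun w => Real.exp (-V w)) → (∫ w, Real.exp (-V w)) = 1 →
  MonotoneOn (deriv (deriv V)) (Ici 0) →
  ∃ T : ℝ → ℝ, (∀ x, Nc (T x) = ∫ s in Iic x, Real.exp (-V s)) ∧ ConvexOn ℝ (Ioi 0) T

/-- VVV (from H4, GSM).  `V w = h w + h(-w) + log c`, `h = -log g` is smooth (`g` is real analytic
and positive, GSM), `V'' w = h''(w) + h''(-w)`, `V''' w = h''' w - h'''(-w) ≥ 0` for `w ≥ 0`
because `h'''` is nondecreasing (H4), so `V''` is nondecreasing on `[0,∞)`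
(`monotoneOn_of_deriv_nonneg`). -/
def T_VVV : Prop := (∀ t : ℝ, 0 < g t) → ∀ c : ℝ, 0 < c →
  let V : ℝ → ℝ := fun w => -Real.log (g w * g (-w) / c)
  ContDiff ℝ 3 V ∧ (∀ w, V (-w) = V w) ∧ (∀ w, Real.exp (-V w) = g w * g (-w) / c) ∧
  MonotoneOn (deriv (deriv V)) (Ici 0)

/-- FIN (from ZPR, QCV, VVV, NRM).  Take `c = ∫ g s g(-s) ds` and `V` from VVV.  QCV gives `T₀`
with `Nc (T₀ x) = (∫_{Iic x} g g(-·))/c`, convex on `(0,∞)`.  By ZPR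
`cdf (P.map Z) w = P.real {Z ≤ w} = Nc (T₀ (2^{1/3} w))`, so `T w = T₀ (2^{1/3} w)`, which is convex
on `(0,∞)`; unique because `Nc` is injective (NRM). -/
def T_FIN : Prop := ∀ (Ω : Type) [MeasurableSpace Ω] (P : Measure Ω) [IsProbabilityMeasure P]
  (W₁ W₂ : ℝ≥0 → Ω → ℝ), IsBrownianReal W₁ P → IsBrownianReal W₂ P →
  IndepFun (fun ω t => W₁ t ω) (fun ω t => W₂ t ω) P →
  (∀ᵐ ω ∂P, ∃! t₀ : ℝ, ∀ t, B2 W₁ W₂ t ω - t ^ 2 ≤ B2 W₁ W₂ t₀ ω - t₀ ^ 2) ∧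
  ∀ Z : Ω → ℝ, AEMeasurable Z P →
    (∀ᵐ ω ∂P, ∀ t, B2 W₁ W₂ t ω - t ^ 2 ≤ B2 W₁ W₂ (Z ω) ω - Z ω ^ 2) →
    ∃ T : ℝ → ℝ, (∀ w : ℝ, cdf (gaussianReal 0 1) (T w) = cdf (P.map Z) w) ∧
      (∀ T' : ℝ → ℝ, (∀ w : ℝ, cdf (gaussianReal 0 1) (T' w) = cdf (P.map Z) w) → T' = T) ∧
      ConvexOn ℝ (Ioi 0) T

end CHF
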